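import Pool.Agent.U228.KP.Main
import Pool.Agent.N995.Fso

/-!
# All powers: the determinant class
-/

set_option autoImplicit false
set_option linter.unusedSectionVars false

open Matrix Finset Module

namespace Pool.Agent.U228.KP

open Pool.Agent.W544.PG Pool.Agent.TH164.HC Pool.Agent.W565.K3.Ext

/-- The determinant class of `T` on `n` factors: the coefficient is the determinant of the
coordinates if all of them are in `T`, and zero otherwise. -/
def detF {n s : ℕ} (y : Fin n → Fin s ⊕ Fin n) : ℚ :=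
  (Matrix.of fun a b : Fin n => if y a = Sum.inr b then (1 : ℚ) else 0).det

/-- The products of algebraic classes of the surface on some factors, of the transcendental parts of
the diagonals on pairs of factors, and of the determinant class of `T` on `n` factors. -/
def algDet {n : ℕ} (T : HS n) (s m : ℕ) : Submodule ℚ ((Fin m → Fin s ⊕ Fin n) → ℚ) :=
  Submodule.span ℚ {t | ∃ (F P : Type) (_ : Fintype F) (_ : Fintype P)
    (e : (F ⊕ (P × Fin 2)) ⊕ Fin n ≃ Fin m) (ν : F → Fin s → ℚ),
    ∀ J, t J = (∏ j, Sum.elim (ν j) (fun _ => 0) (J (e (.inl (.inl j))))) *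
      (∏ l, Matrix.fromBlocks 0 0 0 T.Q (J (e (.inl (.inr (l, 0)))))
        (J (e (.inl (.inr (l, 1)))))) * detF fun a => J (e (.inr a))}

noncomputable section

variable {n s v m : ℕ} {T : HS n}

/-- Products over pairs. -/
theorem prod_pairs {P : Type} [Fintype P] {k : ℕ} (e : P × Fin 2 ≃ Fin k)
    (G : Fin k → Fin k → ℚ) (hG : ∀ a b, G a b = G b a) :
    ∏ j with j < e ((e.symm j).1, Equiv.swap 0 1 (e.symm j).2),
      G j (e ((e.symm j).1, Equiv.swap 0 1 (e.symm j).2)) = ∏ l, G (e (l, 0)) (e (l, 1)) := by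
  rw [Finset.prod_filter, ← Fintype.prod_equiv e (fun x =>
    if e x < e (x.1, Equiv.swap 0 1 x.2) then G (e x) (e (x.1, Equiv.swap 0 1 x.2)) else 1) _
    (fun x => by simp), Fintype.prod_prod_type]
  refine Finset.prod_congr rfl fun l _ => ?_
  rw [Fin.prod_univ_two]
  simp only [Equiv.swap_apply_left, Equiv.swap_apply_right]
  have hne : e (l, 0) ≠ e (l, 1) := by
    intro h
    have := e.injective h
    simp at this
  rcases lt_or_gt_of_ne hne with h | h
  · rw [if_pos h, if_neg (not_lt.2 h.le), mul_one]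
  · rw [if_neg (not_lt.2 h.le), if_pos h, one_mul, hG]

/-- The forms killed by `so(T)` are invariants in the sense of the first fundamental theorem. -/
theorem inv_of_kil {k : ℕ} (t : (Fin k → Fin n) → ℚ)
    (ht : ∀ Z : Matrix (Fin n) (Fin n) ℂ, Zᵀ * mC T.Q + mC T.Q * Z = 0 → Kil Z t) :
    Pool.Agent.TH125.Nod.Inv (fun _ : Fin n => ()) T.Q (fun _ => (1 : ℚ)) t := by
  intro a b _ J
  have hs : ∀ i j, T.Q i j = T.Q j i := fun i j => congrFun (congrFun T.symm j) i
  have h1 := ht (mC (Matrix.of fun l c : Fin n =>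
    (if l = a then T.Q b c else 0) - if l = b then T.Q a c else 0)) (by
      rw [mC_T, ← mC_mul', ← mC_mul', ← mC_add']
      have h2 : (Matrix.of fun l c : Fin n =>
          (if l = a then T.Q b c else 0) - if l = b then T.Q a c else 0)ᵀ * T.Q +
          T.Q * (Matrix.of fun l c : Fin n =>
            (if l = a then T.Q b c else 0) - if l = b then T.Q a c else 0) = 0 := by
        ext i j
        rw [Matrix.add_apply, Matrix.mul_apply, Matrix.mul_apply, Matrix.zero_apply]
        simp only [Matrix.transpose_apply, Matrix.of_apply, sub_mul, mul_sub, ite_mul, mul_ite,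
          zero_mul, mul_zero, Finset.sum_sub_distrib, Finset.sum_ite_eq', Finset.mem_univ, if_true]
        rw [hs i a, hs i b]
        ring
      rw [h2]
      ext i j
      simp [mC]) J
  have h3 : ((∑ j, (T.Q b (J j) * t (Function.update J j a) -
      T.Q a (J j) * t (Function.update J j b)) : ℚ) : ℂ) = 0 := by
    rw [← h1]
    push_cast
    refine Finset.sum_congr rfl fun j _ => ?_
    simp only [mC, Matrix.map_apply, Matrix.of_apply, Rat.cast_sub, sub_mul,
      Finset.sum_sub_distrib]
    congr 1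
    · rw [Finset.sum_eq_single a]
      · rw [if_pos rfl]
      · intro l _ hl
        rw [if_neg hl]
        simp
      · intro h
        exact absurd (Finset.mem_univ a) h
    · rw [Finset.sum_eq_single b]
      · rw [if_pos rfl]
      · intro l _ hl
        rw [if_neg hl]
        simp
      · intro h
        exact absurd (Finset.mem_univ b) h
  have h4 : (∑ j, (T.Q b (J j) * t (Function.update J j a) -
      T.Q a (J j) * t (Function.update J j b)) : ℚ) = 0 := by exact_mod_cast h3
  simpa [smul_eq_mul] using h4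

theorem gen_alg (q : Fin m → Option (Fin s)) {P : Type} [Fintype P]
    (e : (P × Fin 2) ⊕ Empty ≃ Fin (A q).card) (w : ℚ) :
    Φ q (Pool.Agent.N995.gS T.Q (fun _ : Empty → Fin n => (1 : ℚ)) e w) ∈ T.alg s m := by
  let e' : P × Fin 2 ≃ Fin (A q).card := (Equiv.sumEmpty _ _).symm.trans e
  have he' : ∀ x, e' x = e (Sum.inl x) := fun x => rfl
  let u : (Fin (A q).card → Fin n) → ℚ := fun x =>
    ∏ l, T.Q (x (e (Sum.inl (l, 0)))) (x (e (Sum.inl (l, 1))))
  have h1 : Pool.Agent.N995.gS T.Q (fun _ : Empty → Fin n => (1 : ℚ)) e w = w • u := by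
    funext x
    unfold Pool.Agent.N995.gS
    simp only [u, Pi.smul_apply, smul_eq_mul, mul_one]
    ring
  rw [h1, map_smul]
  refine Submodule.smul_mem _ _ ?_
  refine W74.PG.alg_gen T q (fun j => e' ((e'.symm j).1, Equiv.swap 0 1 (e'.symm j).2)) ?_ ?_ u ?_
  · intro j
    simp
  · intro j h
    have h2 := e'.symm.injective.eq_iff.2 h
    rw [Equiv.symm_apply_apply] at h2
    have h3 := congrArg Prod.snd h2
    simp only at h3
    have h4 : ∀ i : Fin 2, Equiv.swap 0 1 i ≠ i := by decide
    exact h4 _ h3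
  · intro I
    rw [prod_pairs e' (fun a b => T.Q (I a) (I b)) (fun a b => by
      exact congrFun (congrFun T.symm (I b)) (I a))]
    rfl

theorem gen_det (q : Fin m → Option (Fin s)) {P : Type} [Fintype P]
    (e : (P × Fin 2) ⊕ Fin n ≃ Fin (A q).card) (w : ℚ) :
    Φ q (Pool.Agent.N995.gS T.Q (Pool.Agent.N995.dJ ℚ) e w) ∈ algDet T s m := by
  let u : (Fin (A q).card → Fin n) → ℚ := fun x =>
    (∏ l, T.Q (x (e (Sum.inl (l, 0)))) (x (e (Sum.inl (l, 1))))) *
      Pool.Agent.N995.dJ ℚ fun t => x (e (Sum.inr t))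
  have h1 : Pool.Agent.N995.gS T.Q (Pool.Agent.N995.dJ ℚ) e w = w • u := by
    funext x
    unfold Pool.Agent.N995.gS
    simp only [u, Pi.smul_apply, smul_eq_mul]
    ring
  rw [h1, map_smul]
  refine Submodule.smul_mem _ _ (Submodule.subset_span ?_)
  let F : Type := {j : Fin m // q j ≠ none}
  let e0 : F ⊕ Fin (A q).card ≃ Fin m :=
    (Equiv.sumCongr (Equiv.refl _) ((ee q).toEquiv.trans
      (Equiv.subtypeEquivRight fun j => mem_A q j))).trans
      ((Equiv.sumComm _ _).trans (Equiv.sumCompl fun j => q j = none))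
  have he0 : ∀ i, e0 (Sum.inr i) = ee q i := fun i => rfl
  have he0' : ∀ j : F, e0 (Sum.inl j) = j.1 := fun j => rfl
  let e1 : (F ⊕ (P × Fin 2)) ⊕ Fin n ≃ Fin m :=
    (Equiv.sumAssoc _ _ _).trans ((Equiv.sumCongr (Equiv.refl _) e).trans e0)
  have h11 : ∀ j : F, e1 (.inl (.inl j)) = j.1 := fun j => rfl
  have h12 : ∀ x : P × Fin 2, e1 (.inl (.inr x)) = ee q (e (.inl x)) := fun x => rfl
  have h13 : ∀ a : Fin n, e1 (.inr a) = ee q (e (.inr a)) := fun a => rfl
  refine ⟨F, P, inferInstance, inferInstance, e1, fun j b => if q j.1 = some b then 1 else 0, ?_⟩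
  intro I
  simp only [h11, h12, h13]
  by_cases hI : pat I = q
  · obtain ⟨K, rfl⟩ := exists_mk I hI
    rw [Φ_mk]
    have p1 : ∏ j : F, Sum.elim (fun b => if q j.1 = some b then (1 : ℚ) else 0)
        (fun _ => 0) (mk q K j.1) = 1 := by
      refine Finset.prod_eq_one fun j _ => ?_
      obtain ⟨b, hb⟩ := Option.ne_none_iff_exists'.1 j.2
      rw [mk_some K hb, Sum.elim_inl, if_pos hb]
    rw [p1, one_mul]
    simp only [u, mk_ee, Matrix.fromBlocks_apply₂₂]
    congr 1
    unfold detF Pool.Agent.N995.dJ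
    congr 1
    ext a b
    simp only [Matrix.of_apply, Sum.inr.injEq]
  · rw [Φ_zero q u I hI]
    have : ∃ j, pat I j ≠ q j := by
      by_contra hcon
      push Not at hcon
      exact hI (funext hcon)
    obtain ⟨j, hj⟩ := this
    symm
    cases hq : q j with
    | some a =>
      rw [mul_assoc]
      apply mul_eq_zero_of_left
      apply Finset.prod_eq_zero (i := (⟨j, by rw [hq]; simp⟩ : F)) (Finset.mem_univ _)
      rw [hq] at hj
      cases hIj : I j with
      | inl b =>
        unfold pat at hj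
        rw [hIj] at hj
        simp only [Sum.elim_inl, ne_eq, Option.some.injEq] at hj
        simp only [Sum.elim_inl, hq, Option.some.injEq]
        rw [if_neg (fun h => hj h.symm)]
      | inr b => rfl
    | none =>
      obtain ⟨i, rfl⟩ := exists_ee hq
      have hb : ∃ b, I (ee q i) = Sum.inl b := by
        unfold pat at hj
        rw [hq] at hj
        cases hIj : I (ee q i) with
        | inl b => exact ⟨b, rfl⟩
        | inr b => rw [hIj] at hj; simp at hj
      obtain ⟨b, hb⟩ := hb
      obtain ⟨x, rfl⟩ := e.surjective i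
      rcases x with ⟨l, c⟩ | a
      · apply mul_eq_zero_of_left
        apply mul_eq_zero_of_right
        apply Finset.prod_eq_zero (i := l) (Finset.mem_univ _)
        fin_cases c
        · simp only [Fin.zero_eta] at hb
          rw [hb]
          rcases I (ee q (e (Sum.inl (l, 1)))) with c | c <;> rfl
        · simp only [Fin.mk_one] at hb
          rw [hb]
          rcases I (ee q (e (Sum.inl (l, 0)))) with c | c <;> rfl
      · apply mul_eq_zero_of_right
        unfold detF
        refine Matrix.det_eq_zero_of_row_eq_zero a fun c => ?_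
        change (if I (ee q (e (Sum.inr a))) = Sum.inr c then (1 : ℚ) else 0) = 0
        rw [hb, if_neg (by simp)]

/-- **Hodge classes on all powers.** -/
theorem all_of_hodge (hn : 2 ≤ n) (hT : K3Type T) (hS : T.Scalar)
    (t : (Fin m → Fin s ⊕ Fin n) → ℚ) (ht : T.IsHodgeS t) :
    t ∈ T.alg s m ⊔ algDet T s m := by
  rw [t_eq t]
  refine Submodule.sum_mem _ fun q _ => ?_
  have hunit : IsUnit T.Q.det := isUnit_iff_ne_zero.2 (W74.PG.det_ne T)
  have h0 := W74.PG.hodge_slice T t ht q
  have h1 := Pool.Agent.N995.fso (M := ℚ) (Q := T.Q) (R := T.Q⁻¹)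
    (fun a b => congrFun (congrFun T.symm b) a) (Matrix.mul_nonsing_inv _ hunit) _
    (Fin (A q).card) (fun K => t (mk q K)) rfl
    (inv_of_kil _ fun Z hZ => (so_le hn hT hS Z hZ).2 _ _ h0)
  obtain ⟨f0, hf0, f1, hf1, h⟩ := Submodule.mem_sup.1 h1
  rw [← h, map_add]
  clear h
  refine Submodule.add_mem _ (Submodule.mem_sup_left ?_) (Submodule.mem_sup_right ?_)
  · unfold Pool.Agent.N995.GS at hf0
    induction hf0 using Submodule.span_induction with
    | mem f hf =>
      obtain ⟨P, _, e, w, rfl⟩ := hf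
      exact gen_alg q e w
    | zero => rw [map_zero]; exact Submodule.zero_mem _
    | add f f' _ _ hf hf' => rw [map_add]; exact Submodule.add_mem _ hf hf'
    | smul c f _ hf => rw [map_smul]; exact Submodule.smul_mem _ c hf
  · unfold Pool.Agent.N995.GS at hf1
    induction hf1 using Submodule.span_induction with
    | mem f hf =>
      obtain ⟨P, _, e, w, rfl⟩ := hf
      exact gen_det q e w
    | zero => rw [map_zero]; exact Submodule.zero_mem _
    | add f f' _ _ hf hf' => rw [map_add]; exact Submodule.add_mem _ hf hf'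
    | smul c f _ hf => rw [map_smul]; exact Submodule.smul_mem _ c hf

/-- **K3 surfaces with many independent periods**, all powers. -/
theorem many_periods_all (hn : 3 ≤ n) (hT : K3Type T) {w : Fin n → ℂ} (hw : T.x *ᵥ w = w)
    {e : Fin n} (he : w e ≠ 0) (K : Subfield ℂ) {D : ℕ} (p : Fin D → Fin n)
    (hp : AlgebraicIndependent K fun s => w (p s) / w e) (hD : EnoughPeriods n D) :
    (∀ (s m : ℕ) (t : (Fin m → Fin s ⊕ Fin n) → ℚ),
      (∀ J, t J ≠ 0 → (univ.filter fun j => (J j).isRight = true).card < n) →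
      (T.IsHodgeS t ↔ t ∈ T.alg s m)) ∧
    (∀ (s m : ℕ) (t : (Fin m → Fin s ⊕ Fin n) → ℚ), T.IsHodgeS t → t ∈ T.alg s m ⊔ algDet T s m) ∧
    (0 < D → n ≠ 4 → ∀ (v : ℕ) (V : HZ v), (∀ a b, V.z a b ∈ K) →
      ∀ (s m : ℕ) (t : (Fin m → Fin s ⊕ Fin n) → Fin v → ℚ), IsHodgeZ T V t →
        t ∈ products (T.alg s m ⊔ algDet T s m) V.Hdg ∧
        ((∀ J b, t J b ≠ 0 → (univ.filter fun j => (J j).isRight = true).card < n) →
          t ∈ products (T.alg s m) V.Hdg)) := by
  -- normalise the period vector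
  obtain ⟨w', hw'⟩ : ∃ w', w' = (w e)⁻¹ • w := ⟨_, rfl⟩
  have hxw' : T.x *ᵥ w' = w' := by rw [hw', Matrix.mulVec_smul, hw]
  have he' : w' e = 1 := by rw [hw', Pi.smul_apply, smul_eq_mul, inv_mul_cancel₀ he]
  have hpe : (fun s => w (p s) / w e) = fun s => w' (p s) := by
    funext s
    rw [hw', Pi.smul_apply, smul_eq_mul, div_eq_inv_mul]
  rw [hpe] at hp
  have hS := scalar (by omega) hT hxw' he' p K hp hD
  refine ⟨fun s m t htr => ⟨fun ht => alg_of_hodge (by omega) hT hS t ht htr,
    hodge_of_alg t⟩, fun s m t ht => all_of_hodge (by omega) hT hS t ht, ?_⟩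
  intro hD0 hn4 v V hV s m t ht
  have hF := full_of hn hn4 hT hS
  obtain ⟨δ, hδK, hδ⟩ := Pool.Agent.TH504.CB.exists_derivationK hp (fun _ => (1 : ℂ))
  obtain ⟨a, b, hab⟩ := exists_der (δ := δ) (by omega) hT hxw' he' (i := p ⟨0, hD0⟩) (by
    rw [hδ ⟨0, hD0⟩]
    exact one_ne_zero)
  have hsep := separate hF ht fun i => by
    refine ⟨T.x.map δ, Nt_der ht hF.bx δ fun a b => hδK ⟨V.z a b, hV a b⟩, a, b,
      Subsingleton.elim _ _, Subsingleton.elim _ _, ?_⟩
    rw [Matrix.map_apply]
    exact hab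
  exact ⟨mem_products t (fun b => all_of_hodge (by omega) hT hS _ (hsep.1 b)) hsep.2,
    fun htr => mem_products t (fun b => alg_of_hodge (by omega) hT hS _ (hsep.1 b)
      fun J hJ => htr J b hJ) hsep.2⟩

end

end Pool.Agent.U228.KP
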