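import Pool.Agent.TH164.Main

/-!
# The Lie algebra that kills a Hodge class on the product of surfaces and a variety
-/

set_option autoImplicit false
set_option linter.unusedSectionVars false

open Matrix Finset Module

namespace Pool.Agent.U228.KP

open Pool.Agent.W544.PG Pool.Agent.TH164.HC

noncomputable section

variable {n r s v m : ℕ}

/-- An operator on `T` as an operator on the total cohomology. -/
def emb (s : ℕ) (y : Matrix (Fin n) (Fin n) ℂ) : Matrix (Fin s ⊕ Fin n) (Fin s ⊕ Fin n) ℂ :=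
  fromBlocks 0 0 0 y

theorem emb_add (y z : Matrix (Fin n) (Fin n) ℂ) : emb s (y + z) = emb s y + emb s z := by
  unfold emb
  rw [fromBlocks_add]
  simp

theorem emb_sub (y z : Matrix (Fin n) (Fin n) ℂ) : emb s (y - z) = emb s y - emb s z := by
  ext i j
  rcases i with i | i <;> rcases j with j | j <;> simp [emb]

theorem emb_smul (a : ℂ) (y : Matrix (Fin n) (Fin n) ℂ) : emb s (a • y) = a • emb s y := by
  unfold emb
  rw [fromBlocks_smul]
  simp

theorem emb_mul (y z : Matrix (Fin n) (Fin n) ℂ) : emb s (y * z) = emb s y * emb s z := by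
  unfold emb
  rw [fromBlocks_multiply]
  simp

theorem emb_zero : emb s (0 : Matrix (Fin n) (Fin n) ℂ) = 0 := by
  unfold emb
  exact fromBlocks_zero

section act

variable {κ : Type} [Fintype κ] [DecidableEq κ] {l : ℕ}

theorem act_add (A B : Matrix κ κ ℂ) (f : (Fin l → κ) → ℂ) :
    act (A + B) f = act A f + act B f := by
  funext J
  simp only [act, Matrix.add_apply, add_mul, Finset.sum_add_distrib, Pi.add_apply]

theorem act_smul (a : ℂ) (A : Matrix κ κ ℂ) (f : (Fin l → κ) → ℂ) :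
    act (a • A) f = a • act A f := by
  funext J
  simp only [act, Matrix.smul_apply, smul_eq_mul, mul_assoc, Pi.smul_apply, Finset.mul_sum]

theorem act_zero (f : (Fin l → κ) → ℂ) : act (0 : Matrix κ κ ℂ) f = 0 := by
  funext J
  simp [act]

theorem act_sum_right {ι : Type} (u : Finset ι) (A : Matrix κ κ ℂ) (a : ι → ℂ)
    (f : ι → (Fin l → κ) → ℂ) :
    act A (fun J => ∑ i ∈ u, a i * f i J) = fun J => ∑ i ∈ u, a i * act A (f i) J := by
  funext J
  simp only [act, Finset.mul_sum]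
  rw [Finset.sum_congr rfl fun j _ => Finset.sum_comm, Finset.sum_comm]
  refine Finset.sum_congr rfl fun i _ => Finset.sum_congr rfl fun j _ =>
    Finset.sum_congr rfl fun q _ => ?_
  ring

end act

/-- The components of a class. -/
def sl (t : (Fin m → Fin s ⊕ Fin n) → Fin v → ℚ) (b : Fin v) : (Fin m → Fin s ⊕ Fin n) → ℂ :=
  cx fun J => t J b

/-- The skew operators on the `T_i` that kill the class `t`. -/
def Nt (Q : Matrix (Fin n) (Fin n) ℚ) (c : Fin n → Fin r)
    (t : (Fin m → Fin s ⊕ Fin n) → Fin v → ℚ) : Submodule ℂ (Matrix (Fin n) (Fin n) ℂ) where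
  carrier := {y | (yᵀ * mC Q + mC Q * y = 0 ∧ BD c y) ∧ ∀ b, act (emb s y) (sl t b) = 0}
  zero_mem' := by
    refine ⟨⟨by simp, fun a b _ => rfl⟩, fun b => ?_⟩
    rw [emb_zero, act_zero]
  add_mem' := by
    rintro y z ⟨⟨h1, h2⟩, h3⟩ ⟨⟨h1', h2'⟩, h3'⟩
    refine ⟨⟨?_, fun a b hab => ?_⟩, fun b => ?_⟩
    · rw [Matrix.transpose_add, Matrix.add_mul, Matrix.mul_add, add_add_add_comm, h1, h1', add_zero]
    · rw [Matrix.add_apply, h2 a b hab, h2' a b hab, add_zero]
    · rw [emb_add, act_add, h3, h3', add_zero]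
  smul_mem' := by
    rintro a y ⟨⟨h1, h2⟩, h3⟩
    refine ⟨⟨?_, fun e b hab => ?_⟩, fun b => ?_⟩
    · rw [Matrix.transpose_smul, Matrix.smul_mul, Matrix.mul_smul, ← smul_add, h1, smul_zero]
    · rw [Matrix.smul_apply, h2 e b hab, smul_zero]
    · rw [emb_smul, act_smul, h3, smul_zero]

theorem skew_br {Q y z : Matrix (Fin n) (Fin n) ℂ} (hy : yᵀ * Q + Q * y = 0)
    (hz : zᵀ * Q + Q * z = 0) : (y * z - z * y)ᵀ * Q + Q * (y * z - z * y) = 0 := by
  have h2 : yᵀ * Q = -(Q * y) := eq_neg_of_add_eq_zero_left hy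
  have h3 : zᵀ * Q = -(Q * z) := eq_neg_of_add_eq_zero_left hz
  rw [Matrix.transpose_sub, Matrix.transpose_mul, Matrix.transpose_mul, Matrix.sub_mul,
    Matrix.mul_assoc, Matrix.mul_assoc, h2, h3, Matrix.mul_neg, Matrix.mul_neg,
    ← Matrix.mul_assoc, ← Matrix.mul_assoc, h2, h3, Matrix.mul_sub]
  simp only [Matrix.neg_mul, neg_neg, Matrix.mul_assoc]
  abel

theorem BD_br {c : Fin n → Fin r} {y z : Matrix (Fin n) (Fin n) ℂ} (hy : BD c y) (hz : BD c z) :
    BD c (y * z - z * y) := by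
  intro a b hab
  rw [Matrix.sub_apply, hy.mul hz a b hab, hz.mul hy a b hab, sub_zero]

variable {T : HS n} {c : Fin n → Fin r} {k : Fin r → ℕ}
  {t : (Fin m → Fin s ⊕ Fin n) → Fin v → ℚ}

/-- The operators `x` for which `t` is compatible with an operator on the other factor normalise the
Lie algebra. -/
theorem Nt_norm {Q : Matrix (Fin n) (Fin n) ℚ} {x : Matrix (Fin n) (Fin n) ℂ}
    {z : Matrix (Fin v) (Fin v) ℂ} (hx : xᵀ * mC Q + mC Q * x = 0) (hxc : BD c x)
    (h : ∀ b, act (emb s x) (sl t b) = fun J => ∑ b', z b b' * sl t b' J)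
    {y : Matrix (Fin n) (Fin n) ℂ} (hy : y ∈ Nt Q c t) : x * y - y * x ∈ Nt Q c t := by
  obtain ⟨⟨h1, h2⟩, h3⟩ := hy
  refine ⟨⟨skew_br hx h1, BD_br hxc h2⟩, fun b => ?_⟩
  rw [emb_sub, emb_mul, emb_mul, W368.PG.act_lie, h3, W368.PG.act_zero', sub_zero, h,
    act_sum_right]
  funext J
  refine Finset.sum_eq_zero fun b' _ => ?_
  rw [h3 b', Pi.zero_apply, mul_zero]

/-- The condition to be a Hodge class. -/
theorem hodge_iff {V : HZ v} (ht : IsHodgeZ T V t) (b : Fin v) :
    act (emb s T.x) (sl t b) = fun J => ∑ b', V.z b b' * sl t b' J := by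
  funext J
  have h1 := congrFun (op_eq t ht J) b
  exact h1.symm

theorem hodge_map {V : HZ v} (ht : IsHodgeZ T V t) (σ : ℂ ≃+* ℂ) (b : Fin v) :
    act (emb s (T.x.map σ)) (sl t b) = fun J => ∑ b', (V.z.map σ) b b' * sl t b' J := by
  funext J
  have h1 := congrFun (hodge_iff ht b) J
  have h2 := congrArg σ h1
  have h3 : emb s (T.x.map σ) = (emb s T.x).map σ := by
    unfold emb
    rw [fromBlocks_map, Matrix.map_zero _ (map_zero σ), Matrix.map_zero _ (map_zero σ),
      Matrix.map_zero _ (map_zero σ)]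
  rw [h3]
  have h4 : act ((emb s T.x).map σ) (sl t b) J = σ (act (emb s T.x) (sl t b) J) := by
    simp only [act, sl, cx, Matrix.map_apply, map_sum, map_mul, map_ratCast]
  rw [h4, h2, map_sum]
  refine Finset.sum_congr rfl fun b' _ => ?_
  simp only [sl, cx, map_mul, map_ratCast, Matrix.map_apply]

theorem skew_map {Q : Matrix (Fin n) (Fin n) ℚ} {x : Matrix (Fin n) (Fin n) ℂ}
    (hx : xᵀ * mC Q + mC Q * x = 0) (σ : ℂ ≃+* ℂ) : (x.map σ)ᵀ * mC Q + mC Q * x.map σ = 0 := by
  have hQ : mC Q = (mC Q).map σ := by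
    ext a b
    simp [mC]
  have h1 : (xᵀ * mC Q + mC Q * x).map σ = (0 : Matrix (Fin n) (Fin n) ℂ).map σ := by rw [hx]
  rw [Matrix.map_add _ (map_add σ), Matrix.map_mul, Matrix.map_mul, ← hQ,
    Matrix.map_zero _ (map_zero σ)] at h1
  exact h1

/-- Derivations: the derivative of the Hodge operator kills `t` if the derivation kills the Hodge
operator of the other factor. -/
theorem Nt_der {V : HZ v} (ht : IsHodgeZ T V t) (hxc : BD c T.x) (δ : Derivation ℚ ℂ ℂ)
    (hδ : ∀ a b, δ (V.z a b) = 0) : T.x.map δ ∈ Nt T.Q c t := by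
  have hrat : ∀ q : ℚ, δ (q : ℂ) = 0 := by
    intro q
    have h1 := δ.map_algebraMap q
    exact h1
  have hq : ∀ (q : ℚ) (w : ℂ), δ (w * (q : ℂ)) = δ w * (q : ℂ) := by
    intro q w
    rw [δ.leibniz, hrat, smul_zero, zero_add, smul_eq_mul, mul_comm]
  have hq' : ∀ (q : ℚ) (w : ℂ), δ ((q : ℂ) * w) = (q : ℂ) * δ w := by
    intro q w
    rw [mul_comm, hq, mul_comm]
  refine ⟨⟨?_, ?_⟩, fun b => ?_⟩
  · ext a b
    have h1 := congrArg δ (congrFun (congrFun T.skew a) b)
    rw [Matrix.add_apply, Matrix.mul_apply, Matrix.mul_apply, Matrix.zero_apply, map_zero, map_add,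
      map_sum, map_sum] at h1
    rw [Matrix.add_apply, Matrix.mul_apply, Matrix.mul_apply, Matrix.zero_apply, ← h1]
    congr 1
    · refine Finset.sum_congr rfl fun e _ => ?_
      simp only [Matrix.transpose_apply, Matrix.map_apply, mC, hq]
    · refine Finset.sum_congr rfl fun e _ => ?_
      simp only [Matrix.map_apply, mC, hq']
  · intro a b hab
    rw [Matrix.map_apply, hxc a b hab, map_zero]
  · funext J
    have h1 := congrArg δ (congrFun (hodge_iff ht b) J)
    have h2 : δ (∑ b', V.z b b' * sl t b' J) = 0 := by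
      rw [map_sum]
      refine Finset.sum_eq_zero fun b' _ => ?_
      simp only [sl, cx]
      rw [hq, hδ, zero_mul]
    rw [h2] at h1
    rw [Pi.zero_apply, ← h1]
    have h3 : emb s (T.x.map δ) = (emb s T.x).map δ := by
      unfold emb
      rw [fromBlocks_map, Matrix.map_zero _ (map_zero δ), Matrix.map_zero _ (map_zero δ),
        Matrix.map_zero _ (map_zero δ)]
    rw [h3]
    simp only [act, sl, cx, Matrix.map_apply, map_sum, hq]

/-- Differences: the difference of two Hodge operators for which `t` is compatible with the same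
operator on the other factor kills `t`. -/
theorem Nt_diff {Q : Matrix (Fin n) (Fin n) ℚ} {x x' : Matrix (Fin n) (Fin n) ℂ}
    {z : Matrix (Fin v) (Fin v) ℂ} (hx : xᵀ * mC Q + mC Q * x = 0) (hxc : BD c x)
    (hx' : x'ᵀ * mC Q + mC Q * x' = 0) (hxc' : BD c x')
    (h : ∀ b, act (emb s x) (sl t b) = fun J => ∑ b', z b b' * sl t b' J)
    (h' : ∀ b, act (emb s x') (sl t b) = fun J => ∑ b', z b b' * sl t b' J) :
    x - x' ∈ Nt Q c t := by
  refine ⟨⟨?_, ?_⟩, fun b => ?_⟩
  · rw [Matrix.transpose_sub, Matrix.sub_mul, Matrix.mul_sub,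
      show xᵀ * mC Q - x'ᵀ * mC Q + (mC Q * x - mC Q * x') =
        (xᵀ * mC Q + mC Q * x) - (x'ᵀ * mC Q + mC Q * x') by abel, hx, hx', sub_zero]
  · intro a b hab
    rw [Matrix.sub_apply, hxc a b hab, hxc' a b hab, sub_zero]
  · have h1 : emb s (x - x') = emb s x + (-1 : ℂ) • emb s x' := by
      rw [emb_sub, neg_smul, one_smul, sub_eq_add_neg]
    rw [h1, act_add, act_smul, h, h', neg_smul, one_smul, add_neg_cancel]

/-! ### Ideals -/

/-- `so(T')` is not commutative. -/
theorem not_line {q : ℕ} (T' : HS q) (hq : 3 ≤ q) (y0 : Matrix (Fin q) (Fin q) ℂ)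
    (h : ∀ Z : Matrix (Fin q) (Fin q) ℂ, Zᵀ * mC T'.Q + mC T'.Q * Z = 0 →
      Z ∈ Submodule.span ℂ {y0}) : False := by
  have hdet : (mC T'.Q).det ≠ 0 := by
    rw [det_mC]
    exact_mod_cast W74.PG.det_ne T'
  have hunit : IsUnit (mC T'.Q).det := isUnit_iff_ne_zero.2 hdet
  have hs : (mC T'.Q)ᵀ = mC T'.Q := by rw [mC_T, T'.symm]
  have key : ∀ A : Matrix (Fin q) (Fin q) ℂ, Aᵀ = -A →
      ∃ a : ℂ, a • (mC T'.Q * y0) = A := by
    intro A hA
    have h1 : ((mC T'.Q)⁻¹ * A)ᵀ * mC T'.Q + mC T'.Q * ((mC T'.Q)⁻¹ * A) = 0 := by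
      rw [Matrix.transpose_mul, Matrix.transpose_nonsing_inv, hs, Matrix.mul_assoc,
        Matrix.nonsing_inv_mul _ hunit, Matrix.mul_one, ← Matrix.mul_assoc,
        Matrix.mul_nonsing_inv _ hunit, Matrix.one_mul, hA, neg_add_cancel]
    obtain ⟨a, ha⟩ := Submodule.mem_span_singleton.1 (h _ h1)
    refine ⟨a, ?_⟩
    rw [← Matrix.mul_smul, ha, ← Matrix.mul_assoc, Matrix.mul_nonsing_inv _ hunit, Matrix.one_mul]
  let i0 : Fin q := ⟨0, by omega⟩
  let i1 : Fin q := ⟨1, by omega⟩
  let i2 : Fin q := ⟨2, by omega⟩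
  have h01 : i0 ≠ i1 := by simp [i0, i1]
  have h02 : i0 ≠ i2 := by simp [i0, i2]
  have h12 : i1 ≠ i2 := by simp [i1, i2]
  obtain ⟨a, ha⟩ := key (Matrix.single i0 i1 1 - Matrix.single i1 i0 1) (by
    rw [Matrix.transpose_sub, Matrix.transpose_single, Matrix.transpose_single, neg_sub])
  obtain ⟨b, hb⟩ := key (Matrix.single i0 i2 1 - Matrix.single i2 i0 1) (by
    rw [Matrix.transpose_sub, Matrix.transpose_single, Matrix.transpose_single, neg_sub])
  have e1 := congrFun (congrFun ha i0) i1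
  have e2 := congrFun (congrFun hb i0) i1
  rw [Matrix.smul_apply, Matrix.sub_apply, Matrix.single_apply, Matrix.single_apply] at e1 e2
  rw [if_pos ⟨rfl, rfl⟩, if_neg (fun h => h01 h.1.symm)] at e1
  rw [if_neg (fun h => h12 h.2.symm), if_neg (fun h => h02 h.1.symm), sub_zero, smul_eq_mul] at e2
  rw [sub_zero, smul_eq_mul] at e1
  have e3 := congrFun (congrFun hb i0) i2
  rw [Matrix.smul_apply, Matrix.sub_apply, Matrix.single_apply, Matrix.single_apply,
    if_pos ⟨rfl, rfl⟩, if_neg (fun h => h02 h.1.symm), sub_zero, smul_eq_mul] at e3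
  rcases mul_eq_zero.1 e2 with h0 | h0
  · rw [h0, zero_mul] at e3
    exact zero_ne_one e3
  · rw [h0, mul_zero] at e1
    exact zero_ne_one e1

/-- A space of skew block diagonal operators that is stable under the conjugates of the Hodge operator
and does not vanish on the `i`-th block contains the skew operators on the `i`-th block. -/
theorem block_mem (hT : Full T c k) (N : Submodule ℂ (Matrix (Fin n) (Fin n) ℂ))
    (hN : ∀ y ∈ N, yᵀ * mC T.Q + mC T.Q * y = 0 ∧ BD c y)
    (hst : ∀ Z : Matrix (Fin n) (Fin n) ℂ, Zᵀ * mC T.Q + mC T.Q * Z = 0 → BD c Z →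
      ∀ y ∈ N, Z * y - y * Z ∈ N)
    (i : Fin r) (hne : ∃ y ∈ N, ∃ a b, c a = i ∧ c b = i ∧ y a b ≠ 0)
    (Z : Matrix (Fin n) (Fin n) ℂ) (hZi : ∀ a b, Z a b ≠ 0 → c a = i ∧ c b = i)
    (hZ : Zᵀ * mC T.Q + mC T.Q * Z = 0) : Z ∈ N := by
  obtain ⟨e, T', b⟩ := exists_blk' hT i
  have hmul : ∀ A B : Matrix (Fin (k i)) (Fin (k i)) ℂ,
      sel e * A * (sel e)ᵀ * (sel e * B * (sel e)ᵀ) = sel e * (A * B) * (sel e)ᵀ := by
    intro A B
    calc sel e * A * (sel e)ᵀ * (sel e * B * (sel e)ᵀ) =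
        sel e * A * ((sel e)ᵀ * sel e) * B * (sel e)ᵀ := by
          simp only [Matrix.mul_assoc]
      _ = _ := by
          rw [sel_T_sel _ b.en.inj, Matrix.mul_one]
          simp only [Matrix.mul_assoc]
  -- the bracket with an element of the block
  have hbr : ∀ Z' : Matrix (Fin (k i)) (Fin (k i)) ℂ, ∀ y : Matrix (Fin n) (Fin n) ℂ, BD c y →
      sel e * Z' * (sel e)ᵀ * y - y * (sel e * Z' * (sel e)ᵀ) =
        sel e * (Z' * y.submatrix e e - y.submatrix e e * Z') * (sel e)ᵀ := by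
    intro Z' y hy
    have h1 : (sel e)ᵀ * y = y.submatrix e e * (sel e)ᵀ := b.en.selT_mul hy
    have h2 : y * sel e = sel e * y.submatrix e e := b.en.mul_sel hy
    rw [Matrix.mul_assoc (sel e * Z'), h1, ← Matrix.mul_assoc y, ← Matrix.mul_assoc y, h2,
      Matrix.mul_sub, Matrix.sub_mul]
    simp only [Matrix.mul_assoc]
  let J : Submodule ℂ (Matrix (Fin (k i)) (Fin (k i)) ℂ) :=
    { carrier := {y | yᵀ * mC T'.Q + mC T'.Q * y = 0 ∧ sel e * y * (sel e)ᵀ ∈ N}
      zero_mem' := by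
        refine ⟨by simp, ?_⟩
        rw [Matrix.mul_zero, Matrix.zero_mul]
        exact N.zero_mem
      add_mem' := by
        rintro y z ⟨hy1, hy2⟩ ⟨hz1, hz2⟩
        refine ⟨?_, ?_⟩
        · rw [Matrix.transpose_add, Matrix.add_mul, Matrix.mul_add, add_add_add_comm, hy1, hz1,
            add_zero]
        · rw [Matrix.mul_add, Matrix.add_mul]
          exact N.add_mem hy2 hz2
      smul_mem' := by
        rintro z y ⟨hy1, hy2⟩
        refine ⟨?_, ?_⟩
        · rw [Matrix.transpose_smul, Matrix.smul_mul, Matrix.mul_smul, ← smul_add, hy1,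
            smul_zero]
        · rw [Matrix.mul_smul, Matrix.smul_mul]
          exact N.smul_mem z hy2 }
  have hJmem : ∀ y, y ∈ J ↔ (yᵀ * mC T'.Q + mC T'.Q * y = 0 ∧ sel e * y * (sel e)ᵀ ∈ N) :=
    fun y => Iff.rfl
  have hJne : ∃ y ∈ J, y ≠ 0 := by
    by_contra hcon
    push Not at hcon
    obtain ⟨y, hy, a, b', ha, hb', hyab⟩ := hne
    obtain ⟨hys, hyc⟩ := hN y hy
    obtain ⟨yi, hyi⟩ : ∃ yi, yi = y.submatrix e e := ⟨_, rfl⟩
    have hyi0 : yi ≠ 0 := by
      obtain ⟨a', ha'⟩ := b.en.surj a ha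
      obtain ⟨b'', hb''⟩ := b.en.surj b' hb'
      intro h0
      apply hyab
      have h1 := congrFun (congrFun h0 a') b''
      rw [hyi, Matrix.submatrix_apply, ha', hb''] at h1
      exact h1
    have hyis : yiᵀ * mC T'.Q + mC T'.Q * yi = 0 := by
      rw [hyi]
      exact blk_skew' hT.bQ b hys
    -- the block commutes with everything
    have hcomm : ∀ Z' : Matrix (Fin (k i)) (Fin (k i)) ℂ, Z'ᵀ * mC T'.Q + mC T'.Q * Z' = 0 →
        Z' * yi - yi * Z' = 0 := by
      intro Z' hZ'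
      have h1 := hst _ (sel_skew' hT.bQ b hZ') (sel_BD b.en Z') y hy
      rw [hbr Z' y hyc, ← hyi] at h1
      exact hcon _ ((hJmem _).2 ⟨skew_br hZ' hyis, h1⟩)
    refine not_line T' (hT.three i) yi fun Z' hZ' => ?_
    refine simB T' (hT.three i) (hT.four i) (Submodule.span ℂ {yi}) ?_ ?_
      ⟨yi, Submodule.mem_span_singleton_self yi, hyi0⟩ Z' hZ'
    · intro w hw
      obtain ⟨z, rfl⟩ := Submodule.mem_span_singleton.1 hw
      rw [Matrix.transpose_smul, Matrix.smul_mul, Matrix.mul_smul, ← smul_add, hyis, smul_zero]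
    · intro W hW w hw
      obtain ⟨z, rfl⟩ := Submodule.mem_span_singleton.1 hw
      rw [Matrix.mul_smul, Matrix.smul_mul, ← smul_sub, hcomm W hW, smul_zero]
      exact Submodule.zero_mem _
  have h1 := simB T' (hT.three i) (hT.four i) J (fun y hy => hy.1) ?_ hJne (Z.submatrix e e)
    (blk_skew' hT.bQ b hZ)
  · rw [hJmem, sel_sub b.en Z hZi] at h1
    exact h1.2
  · intro Z' hZ' y hy
    rw [hJmem] at hy ⊢
    refine ⟨skew_br hZ' hy.1, ?_⟩
    have h2 := hst _ (sel_skew' hT.bQ b hZ') (sel_BD b.en Z') _ hy.2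
    rw [hmul, hmul, ← Matrix.sub_mul, ← Matrix.mul_sub] at h2
    exact h2

/-- A space of skew block diagonal operators that is stable under the conjugates of the Hodge operator
and does not vanish on any block contains all skew block diagonal operators. -/
theorem full_mem (hT : Full T c k) (N : Submodule ℂ (Matrix (Fin n) (Fin n) ℂ))
    (hN : ∀ y ∈ N, yᵀ * mC T.Q + mC T.Q * y = 0 ∧ BD c y)
    (hσ : ∀ (σ : ℂ ≃+* ℂ), ∀ y ∈ N, T.x.map σ * y - y * T.x.map σ ∈ N)
    (hne : ∀ i, ∃ y ∈ N, ∃ a b, c a = i ∧ c b = i ∧ y a b ≠ 0)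
    (Z : Matrix (Fin n) (Fin n) ℂ) (hZ : Zᵀ * mC T.Q + mC T.Q * Z = 0) (hZc : BD c Z) : Z ∈ N := by
  classical
  -- the normaliser
  let P : Submodule ℂ (Matrix (Fin n) (Fin n) ℂ) :=
    { carrier := {Z | ∀ y ∈ N, Z * y - y * Z ∈ N}
      zero_mem' := by
        intro y _
        rw [Matrix.zero_mul, Matrix.mul_zero, sub_zero]
        exact N.zero_mem
      add_mem' := by
        intro A B hA hB y hy
        have h1 : (A + B) * y - y * (A + B) = (A * y - y * A) + (B * y - y * B) := by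
          rw [Matrix.add_mul, Matrix.mul_add]
          abel
        rw [h1]
        exact N.add_mem (hA y hy) (hB y hy)
      smul_mem' := by
        intro a A hA y hy
        rw [Matrix.smul_mul, Matrix.mul_smul, ← smul_sub]
        exact N.smul_mem a (hA y hy) }
  have hP : ∀ Z, Z ∈ P ↔ ∀ y ∈ N, Z * y - y * Z ∈ N := fun Z => Iff.rfl
  have hst : ∀ Z : Matrix (Fin n) (Fin n) ℂ, Zᵀ * mC T.Q + mC T.Q * Z = 0 → BD c Z →
      ∀ y ∈ N, Z * y - y * Z ∈ N := by
    intro Z hZ hZc
    refine (hP Z).1 (hT.full P ?_ ?_ Z hZ hZc)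
    · intro A hA B hB y hy
      have h1 : (A * B - B * A) * y - y * (A * B - B * A) =
          (A * (B * y - y * B) - (B * y - y * B) * A) -
            (B * (A * y - y * A) - (A * y - y * A) * B) := by
        simp only [Matrix.mul_sub, Matrix.sub_mul, Matrix.mul_assoc]
        abel
      rw [h1]
      exact N.sub_mem (hA _ (hB y hy)) (hB _ (hA y hy))
    · intro σ y hy
      exact hσ σ y hy
  -- the blocks
  have hblk : ∀ i, (Matrix.of fun a b => if c a = i ∧ c b = i then Z a b else 0) ∈ N := by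
    intro i
    obtain ⟨e, T', b⟩ := exists_blk' hT i
    have h1 : sel e * Z.submatrix e e * (sel e)ᵀ =
        Matrix.of fun a b => if c a = i ∧ c b = i then Z a b else 0 := by
      have h2 := sel_sub b.en (Matrix.of fun a b => if c a = i ∧ c b = i then Z a b else 0) (by
        intro a b' hab
        rw [Matrix.of_apply] at hab
        by_contra h
        rw [if_neg h] at hab
        exact hab rfl)
      rw [← h2]
      congr 2
      ext a b'
      rw [Matrix.submatrix_apply, Matrix.submatrix_apply, Matrix.of_apply, b.en.col, b.en.col,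
        if_pos ⟨rfl, rfl⟩]
    refine block_mem hT N hN hst i (hne i) _ ?_ ?_
    · intro a b' hab
      rw [Matrix.of_apply] at hab
      by_contra h
      rw [if_neg h] at hab
      exact hab rfl
    · rw [← h1]
      exact sel_skew' hT.bQ b (blk_skew' hT.bQ b hZ)
  have h1 : Z = ∑ i, Matrix.of fun a b => if c a = i ∧ c b = i then Z a b else 0 := by
    ext a b
    rw [Matrix.sum_apply]
    simp only [Matrix.of_apply]
    by_cases hab : c a = c b
    · rw [Finset.sum_eq_single (c a)]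
      · rw [if_pos ⟨rfl, hab.symm⟩]
      · intro i _ hi
        rw [if_neg fun h => hi h.1.symm]
      · intro h
        exact absurd (Finset.mem_univ _) h
    · rw [hZc a b hab]
      symm
      refine Finset.sum_eq_zero fun i _ => ?_
      split_ifs <;> rfl
  rw [h1]
  exact N.sum_mem fun i _ => hblk i

/-- **Separation.** If the operators that kill the Hodge class `t` do not all vanish on any block, then
the components of `t` are Hodge classes. -/
theorem separate {V : HZ v} (hT : Full T c k) (ht : IsHodgeZ T V t)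
    (hne : ∀ i, ∃ y ∈ Nt T.Q c t, ∃ a b, c a = i ∧ c b = i ∧ y a b ≠ 0) :
    (∀ b, T.IsHodgeS fun J => t J b) ∧ ∀ J, t J ∈ V.Hdg := by
  have hmem : ∀ Z : Matrix (Fin n) (Fin n) ℂ, Zᵀ * mC T.Q + mC T.Q * Z = 0 → BD c Z →
      Z ∈ Nt T.Q c t := by
    refine full_mem hT _ (fun y hy => hy.1) (fun σ y hy => ?_) hne
    refine Nt_norm (skew_map T.skew σ) ?_ (hodge_map ht σ) hy
    exact hT.bx.map (map_zero σ)
  have hx := (hmem T.x T.skew hT.bx).2
  constructor
  · intro b u a hu ha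
    have h1 : W143.PG.aN (T.xS s) (cx fun J => t J b) = 0 := hx b
    exact W143.PG.killed h1 u (fun j => (a j : ℂ)) hu (by
      intro h2
      apply ha
      exact_mod_cast h2)
  · intro J
    change V.z *ᵥ cV (t J) = 0
    rw [op_eq t ht J]
    funext b
    exact congrFun (hx b) J

end

end Pool.Agent.U228.KP
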