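import Pool.Agent.U228.KP.Pair

/-!
# Duality for algebraic classes on products of surfaces

Let `T` be a Hodge structure of level two, the transcendental part of the cohomology of surfaces, and
let the algebraic parts have orthogonal bases. We show that the intersection form is nondegenerate on the
space `algP` spanned by the products of algebraic classes and of transcendental parts of diagonals on a
product of the surfaces (a case of conjecture D), and that a class with components in `algP` on the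
product of these surfaces and of another variety can be recovered from its push-forwards to the other
variety, after multiplication with classes in `algP`.
-/

set_option autoImplicit false
set_option linter.unusedSectionVars false

open Matrix Finset Module

namespace Pool.Agent.U228.KP

open Pool.Agent.W544.PG Pool.Agent.TH164.HC
open scoped ComplexOrder MatrixOrder

noncomputable section

variable {n s m r v : ℕ}

/-- The inverse of the matrix of the intersection form on the cohomology of the surfaces: `Q` is the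
matrix on the transcendental parts, and `ρ e` is the inverse of the self-intersection of the member `e`
of an orthogonal basis of the algebraic parts. -/
def ifm (Q : Matrix (Fin n) (Fin n) ℚ) (ρ : Fin s → ℚ) : Matrix (Fin s ⊕ Fin n) (Fin s ⊕ Fin n) ℚ :=
  fromBlocks (diagonal ρ) 0 0 Q⁻¹

/-- The intersection number of two classes on a product of surfaces (both given as forms on the
cohomology of the surfaces). -/
def inter (Q : Matrix (Fin n) (Fin n) ℚ) (ρ : Fin s → ℚ) (β α : (Fin m → Fin s ⊕ Fin n) → ℚ) : ℚ :=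
  ∑ J, ∑ K, β J * (∏ j, ifm Q ρ (J j) (K j)) * α K

/-- The push-forward to the last factor of the product of the class `t` and the class `β`. -/
def contr (Q : Matrix (Fin n) (Fin n) ℚ) (ρ : Fin s → ℚ) (β : (Fin m → Fin s ⊕ Fin n) → ℚ)
    (t : (Fin m → Fin s ⊕ Fin n) → Fin v → ℚ) : Fin v → ℚ :=
  fun e => inter Q ρ β fun J => t J e

theorem ifm_symm {Q : Matrix (Fin n) (Fin n) ℚ} (hQ : Qᵀ = Q) (ρ : Fin s → ℚ) :
    (ifm Q ρ)ᵀ = ifm Q ρ := by
  unfold ifm
  rw [fromBlocks_transpose, diagonal_transpose, transpose_zero, transpose_zero,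
    transpose_nonsing_inv, hQ]

theorem inter_eq {Q : Matrix (Fin n) (Fin n) ℚ} (hQ : Qᵀ = Q) (ρ : Fin s → ℚ)
    (β α : (Fin m → Fin s ⊕ Fin n) → ℚ) :
    inter Q ρ β α = ∑ J, β J * pull (ifm Q ρ) α J := by
  unfold inter pull
  refine Finset.sum_congr rfl fun J _ => ?_
  rw [Finset.mul_sum]
  refine Finset.sum_congr rfl fun K _ => ?_
  rw [mul_assoc]
  congr 2
  refine Finset.prod_congr rfl fun j _ => ?_
  exact congrFun (congrFun (ifm_symm hQ ρ) (K j)) (J j)

theorem inter_comm {Q : Matrix (Fin n) (Fin n) ℚ} (hQ : Qᵀ = Q) (ρ : Fin s → ℚ)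
    (β α : (Fin m → Fin s ⊕ Fin n) → ℚ) : inter Q ρ β α = inter Q ρ α β := by
  rw [inter_eq hQ, inter_eq hQ]
  have h1 : ∑ J, β J * pull (ifm Q ρ) α J = ∑ J, pull (ifm Q ρ) α J * β J :=
    Finset.sum_congr rfl fun J _ => mul_comm _ _
  rw [h1, pull_adj, ifm_symm hQ]

/-- The intersection number as a bilinear form. -/
def interL (Q : Matrix (Fin n) (Fin n) ℚ) (ρ : Fin s → ℚ) :
    LinearMap.BilinForm ℚ ((Fin m → Fin s ⊕ Fin n) → ℚ) :=
  LinearMap.mk₂ ℚ (inter Q ρ)
    (fun a b c => by
      simp only [inter, Pi.add_apply, add_mul, Finset.sum_add_distrib])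
    (fun a b c => by
      simp only [inter, Pi.smul_apply, smul_eq_mul, mul_assoc, Finset.mul_sum])
    (fun a b c => by
      simp only [inter, Pi.add_apply, mul_add, Finset.sum_add_distrib])
    (fun a b c => by
      simp only [inter, Pi.smul_apply, smul_eq_mul, Finset.mul_sum]
      refine Finset.sum_congr rfl fun J _ => Finset.sum_congr rfl fun K _ => ?_
      ring)

theorem interL_apply (Q : Matrix (Fin n) (Fin n) ℚ) (ρ : Fin s → ℚ)
    (β α : (Fin m → Fin s ⊕ Fin n) → ℚ) : interL Q ρ β α = inter Q ρ β α := rfl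

/-- the multipliers -/
def dlt (n : ℕ) (ρ : Fin s → ℚ) : Fin s ⊕ Fin n → ℚ := Sum.elim (fun e => -(ρ e)⁻¹) fun _ => 1

/-- The multiplication of the coordinates. -/
def scl (n m : ℕ) (ρ : Fin s → ℚ) :
    ((Fin m → Fin s ⊕ Fin n) → ℚ) →ₗ[ℚ] ((Fin m → Fin s ⊕ Fin n) → ℚ) where
  toFun α := fun J => (∏ j, dlt n ρ (J j)) * α J
  map_add' a b := by funext J; simp [mul_add]
  map_smul' a b := by funext J; simp; ring

theorem scl_algP (T : HS n) (c : Fin n → Fin r) (d : Fin s → Fin r) (a : Fin m → Fin r)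
    (ρ : Fin s → ℚ) {α : (Fin m → Fin s ⊕ Fin n) → ℚ} (hα : α ∈ T.algP c d a) :
    scl n m ρ α ∈ T.algP c d a := by
  have h1 : T.algP c d a ≤ (T.algP c d a).comap (scl n m ρ) := by
    rw [HS.algP, Submodule.span_le]
    rintro t ⟨σ, ν, h1, h2, h3, ht⟩
    refine Submodule.subset_span ⟨σ, fun j e => -(ρ e)⁻¹ * ν j e, h1, h2,
      fun j b hb => h3 j b fun h0 => hb (by simp [h0]), fun J => ?_⟩
    change (∏ j, dlt n ρ (J j)) * t J = _
    rw [ht J]
    by_cases hJ : ∃ j e, σ j ≠ j ∧ J j = Sum.inl e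
    · -- both sides vanish
      obtain ⟨j, e, hj, he⟩ := hJ
      have h0 : ∏ j with j < σ j, (if Sum.elim d c (J j) = a j then
          Matrix.fromBlocks 0 0 0 T.Q (J j) (J (σ j)) else 0) = 0 := by
        rcases lt_or_gt_of_ne hj with hlt | hlt
        · refine Finset.prod_eq_zero (i := σ j) (Finset.mem_filter.2 ⟨Finset.mem_univ _, ?_⟩) ?_
          · rw [h1]; exact hlt
          · rw [h1, he]
            have : Matrix.fromBlocks (0 : Matrix (Fin s) (Fin s) ℚ) 0 0 T.Q (J (σ j))
                (Sum.inl e) = 0 := by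
              rcases J (σ j) with x | x <;> rfl
            rw [this, ite_self]
        · refine Finset.prod_eq_zero (i := j) (Finset.mem_filter.2 ⟨Finset.mem_univ _, hlt⟩) ?_
          rw [he]
          have : Matrix.fromBlocks (0 : Matrix (Fin s) (Fin s) ℚ) 0 0 T.Q (Sum.inl e)
              (J (σ j)) = 0 := by
            rcases J (σ j) with x | x <;> rfl
          rw [this, ite_self]
      rw [h0, mul_zero, mul_zero, mul_zero]
    · push Not at hJ
      rw [← mul_assoc]
      congr 1
      have h4 : ∏ j, dlt n ρ (J j) = ∏ j with σ j = j, dlt n ρ (J j) := by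
        refine (Finset.prod_subset (Finset.filter_subset _ _) fun j _ hj => ?_).symm
        have hj' : σ j ≠ j := fun h => hj (Finset.mem_filter.2 ⟨Finset.mem_univ _, h⟩)
        rcases hJj : J j with e | e
        · exact absurd hJj (hJ j e hj')
        · rfl
      rw [h4, ← Finset.prod_mul_distrib]
      refine Finset.prod_congr rfl fun j _ => ?_
      rcases J j with e | e
      · rfl
      · simp [dlt]
  exact h1 hα

theorem ww {x : Matrix (Fin n) (Fin n) ℂ} (h : x * x * x = x) :
    ((2 : ℂ) • (x * x) - 1) * ((2 : ℂ) • (x * x) - 1) = 1 := by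
  have h1 : x * x * (x * x) = x * x := by rw [← Matrix.mul_assoc, h]
  rw [Matrix.sub_mul, Matrix.mul_sub, Matrix.smul_mul, Matrix.mul_smul, h1, Matrix.one_mul,
    Matrix.mul_one]
  module

theorem mC_inv (T : HS n) : mC T.Q⁻¹ = (mC T.Q)⁻¹ := by
  symm
  apply Matrix.inv_eq_right_inv
  have h1 : IsUnit T.Q.det := isUnit_iff_ne_zero.2 (W74.PG.det_ne T)
  have h2 : mC (T.Q * T.Q⁻¹) = mC T.Q * mC T.Q⁻¹ := by
    unfold mC
    exact Matrix.map_mul (f := (algebraMap ℚ ℂ))
  rw [← h2, Matrix.mul_nonsing_inv _ h1]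
  unfold mC
  simp

/-- **Conjecture D for products of surfaces.** The intersection form is nondegenerate on the span of
the products of algebraic classes and transcendental parts of diagonals. -/
theorem inter_nondeg (T : HS n) {c : Fin n → Fin r} (hx : BD c T.x) (d : Fin s → Fin r)
    (a : Fin m → Fin r) {ρ : Fin s → ℚ} (hρ : ∀ e, ρ e ≠ 0)
    {α : (Fin m → Fin s ⊕ Fin n) → ℚ} (hα : α ∈ T.algP c d a) (h0 : α ≠ 0) :
    ∃ β ∈ T.algP c d a, inter T.Q ρ β α ≠ 0 := by
  refine ⟨scl n m ρ α, scl_algP T c d a ρ hα, fun hz => ?_⟩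
  have hβ : scl n m ρ α = pull (diagonal (dlt n ρ)) α := by
    funext J
    change (∏ j, dlt n ρ (J j)) * α J = _
    unfold pull
    rw [Finset.sum_eq_single J]
    · congr 1
      refine Finset.prod_congr rfl fun j _ => ?_
      rw [diagonal_apply_eq]
    · intro K _ hK
      obtain ⟨j, hj⟩ : ∃ j, K j ≠ J j := by
        by_contra h
        push Not at h
        exact hK (funext h)
      have h9 : (diagonal (dlt n ρ) : Matrix _ _ ℚ) (K j) (J j) = 0 := diagonal_apply_ne _ hj
      have h10 : ∏ j, (diagonal (dlt n ρ) : Matrix _ _ ℚ) (K j) (J j) = 0 :=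
        Finset.prod_eq_zero (Finset.mem_univ j) h9
      rw [h10, zero_mul]
    · intro h
      exact absurd (Finset.mem_univ _) h
  set G : Matrix (Fin s ⊕ Fin n) (Fin s ⊕ Fin n) ℚ := fromBlocks (-1) 0 0 T.Q⁻¹ with hG
  have h1 : ∑ J, α J * pull G α J = 0 := by
    rw [inter_eq T.symm, hβ, pull_adj, ← W557.PG.pull_mul, diagonal_transpose] at hz
    have h2 : ifm T.Q ρ * diagonal (dlt n ρ) = G := by
      ext i j
      rw [mul_diagonal]
      rcases i with i | i <;> rcases j with j | j
      · rw [hG]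
        simp only [ifm, fromBlocks_apply₁₁, dlt, Sum.elim_inl, diagonal_apply, Matrix.neg_apply]
        by_cases hij : i = j
        · subst hij
          rw [if_pos rfl, Matrix.one_apply_eq, mul_neg, mul_inv_cancel₀ (hρ i)]
        · rw [if_neg hij, Matrix.one_apply_ne hij, zero_mul, neg_zero]
      · simp [ifm, hG]
      · simp [ifm, hG]
      · simp [ifm, hG, dlt]
    rw [h2] at hz
    exact hz
  -- over the complex numbers
  have h2 : ∑ J, cx α J * pull (G.map fun q : ℚ => (q : ℂ)) (cx α) J = 0 := by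
    rw [← pull_rat]
    have h3 := congrArg (fun q : ℚ => (q : ℂ)) h1
    push_cast at h3
    exact h3
  have hw := weil T α (W374.PG.hodge_algP T c d a hx α hα)
  set W : Matrix (Fin s ⊕ Fin n) (Fin s ⊕ Fin n) ℂ := (2 : ℂ) • (T.xS s * T.xS s) - 1 with hW
  have h3 : ∑ J, cx α J * pull (W * G.map fun q : ℚ => (q : ℂ)) (cx α) J = 0 := by
    rw [W557.PG.pull_mul, hw]
    have h4 : ∀ J, pull (G.map fun q : ℚ => (q : ℂ)) (((-1 : ℂ) ^ m) • cx α) J =
        (-1 : ℂ) ^ m * pull (G.map fun q : ℚ => (q : ℂ)) (cx α) J := by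
      intro J
      simp only [pull, Pi.smul_apply, smul_eq_mul, Finset.mul_sum]
      refine Finset.sum_congr rfl fun K _ => ?_
      ring
    have h5 : ∑ J, cx α J * pull (G.map fun q : ℚ => (q : ℂ)) (((-1 : ℂ) ^ m) • cx α) J =
        (-1 : ℂ) ^ m * ∑ J, cx α J * pull (G.map fun q : ℚ => (q : ℂ)) (cx α) J := by
      rw [Finset.mul_sum]
      refine Finset.sum_congr rfl fun J _ => ?_
      rw [h4]
      ring
    rw [h5, h2, mul_zero]
  have hP : W * (G.map fun q : ℚ => (q : ℂ)) = fromBlocks 1 0 0 T.H⁻¹ := by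
    have h4 : W = fromBlocks (-1) 0 0 ((2 : ℂ) • (T.x * T.x) - 1) := by
      rw [hW]
      unfold HS.xS
      rw [fromBlocks_multiply, fromBlocks_smul]
      ext i j
      rcases i with i | i <;> rcases j with j | j <;>
        simp [Matrix.sub_apply, Matrix.one_apply]
    have h5 : (G.map fun q : ℚ => (q : ℂ)) = fromBlocks (-1) 0 0 (mC T.Q)⁻¹ := by
      rw [hG, fromBlocks_map, ← mC_inv]
      congr 1
      · ext i j
        simp only [Matrix.map_apply, Matrix.neg_apply, Matrix.one_apply]
        split_ifs <;> simp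
      · ext i j; simp
      · ext i j; simp
    have h6 : T.H⁻¹ = ((2 : ℂ) • (T.x * T.x) - 1) * (mC T.Q)⁻¹ := by
      unfold HS.H
      rw [Matrix.mul_inv_rev, Matrix.inv_eq_right_inv (ww T.cube)]
    rw [h4, h5, h6, fromBlocks_multiply]
    simp
  have hpd : (fromBlocks (1 : Matrix (Fin s) (Fin s) ℂ) 0 0 T.H⁻¹).PosDef := by
    have h4 : (1 : Matrix (Fin s) (Fin s) ℂ).PosDef := Matrix.PosDef.one
    have h5 : T.H⁻¹.PosDef := (H_posDef T).inv
    rw [Matrix.posDef_iff_dotProduct_mulVec]
    constructor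
    · unfold Matrix.IsHermitian
      rw [fromBlocks_conjTranspose, h4.isHermitian.eq, h5.isHermitian.eq, conjTranspose_zero,
        conjTranspose_zero]
    · intro x hx0
      rw [fromBlocks_mulVec]
      simp only [Matrix.zero_mulVec, add_zero, zero_add, Matrix.one_mulVec]
      have h6 : star x ⬝ᵥ Sum.elim (x ∘ Sum.inl) (T.H⁻¹ *ᵥ (x ∘ Sum.inr)) =
          star (x ∘ Sum.inl) ⬝ᵥ (x ∘ Sum.inl) + star (x ∘ Sum.inr) ⬝ᵥ (T.H⁻¹ *ᵥ (x ∘ Sum.inr)) := by
        simp only [dotProduct, Fintype.sum_sum_type]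
        rfl
      rw [h6]
      have h7 : 0 ≤ star (x ∘ Sum.inr) ⬝ᵥ (T.H⁻¹ *ᵥ (x ∘ Sum.inr)) :=
        h5.posSemidef.dotProduct_mulVec_nonneg _
      have h8 : 0 ≤ star (x ∘ Sum.inl) ⬝ᵥ (x ∘ Sum.inl) := dotProduct_star_self_nonneg _
      by_cases hl : x ∘ Sum.inl = 0
      · have hr : x ∘ Sum.inr ≠ 0 := by
          intro hr
          apply hx0
          funext i
          rcases i with i | i
          · exact congrFun hl i
          · exact congrFun hr i
        have h9 : 0 < star (x ∘ Sum.inr) ⬝ᵥ (T.H⁻¹ *ᵥ (x ∘ Sum.inr)) :=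
          h5.dotProduct_mulVec_pos hr
        exact add_pos_of_nonneg_of_pos h8 h9
      · have h9 : 0 < star (x ∘ Sum.inl) ⬝ᵥ (x ∘ Sum.inl) := by
          have := h4.dotProduct_mulVec_pos hl
          rwa [Matrix.one_mulVec] at this
        exact add_pos_of_pos_of_nonneg h9 h7
  rw [hP] at h3
  exact pair_pos hpd h0 h3

/-- The intersection form on the span of the products of algebraic classes and transcendental parts
of diagonals. -/
def interA (T : HS n) (c : Fin n → Fin r) (d : Fin s → Fin r) (a : Fin m → Fin r) (ρ : Fin s → ℚ) :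
    LinearMap.BilinForm ℚ (T.algP c d a) :=
  (interL T.Q ρ).restrict (T.algP c d a)

theorem interA_nondeg (T : HS n) {c : Fin n → Fin r} (hx : BD c T.x) (d : Fin s → Fin r)
    (a : Fin m → Fin r) {ρ : Fin s → ℚ} (hρ : ∀ e, ρ e ≠ 0) :
    (interA T c d a ρ).Nondegenerate := by
  have h1 : ∀ α : T.algP c d a, (∀ β, interA T c d a ρ β α = 0) → α = 0 := by
    intro α h
    by_contra h0
    obtain ⟨β, hβ, hne⟩ := inter_nondeg T hx d a hρ α.2 (fun h => h0 (Subtype.ext h))
    exact hne (h ⟨β, hβ⟩)
  refine ⟨fun α h => h1 α fun β => ?_, fun α h => h1 α h⟩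
  have h2 := h β
  change inter T.Q ρ β.1 α.1 = 0
  rw [inter_comm T.symm]
  exact h2

/-- **Reconstruction.** A class with components in `algP` is a sum of products of classes in `algP` and
of its push-forwards to the last factor. -/
theorem rebuild (T : HS n) {c : Fin n → Fin r} (hx : BD c T.x) (d : Fin s → Fin r)
    (a : Fin m → Fin r) {ρ : Fin s → ℚ} (hρ : ∀ e, ρ e ≠ 0)
    (t : (Fin m → Fin s ⊕ Fin n) → Fin v → ℚ) (h1 : ∀ e, (fun J => t J e) ∈ T.algP c d a)
    (A : Submodule ℚ (Fin v → ℚ)) (h2 : ∀ β ∈ T.algP c d a, contr T.Q ρ β t ∈ A) :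
    t ∈ products (T.algP c d a) A := by
  have hnd := interA_nondeg T hx d a hρ
  let b := Module.finBasis ℚ (T.algP c d a)
  have hsym : ∀ α β, interA T c d a ρ α β = interA T c d a ρ β α :=
    fun α β => inter_comm T.symm ρ _ _
  have h3 : ∀ (e : Fin v) (k), b.repr ⟨fun J => t J e, h1 e⟩ k =
      contr T.Q ρ ((interA T c d a ρ).dualBasis hnd b k).1 t e := by
    intro e k
    have h4 : ∀ α : T.algP c d a, b.repr α k = interA T c d a ρ ((interA T c d a ρ).dualBasis hnd b k) α := by
      intro α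
      conv_rhs => rw [← b.sum_repr α]
      rw [map_sum, Finset.sum_eq_single k]
      · rw [map_smul, LinearMap.BilinForm.apply_dualBasis_left, if_pos rfl, smul_eq_mul, mul_one]
      · intro l _ hl
        rw [map_smul, LinearMap.BilinForm.apply_dualBasis_left, if_neg hl, smul_zero]
      · intro h
        exact absurd (Finset.mem_univ _) h
    exact h4 _
  have h5 : t = ∑ k, fun J e => (b k).1 J * contr T.Q ρ ((interA T c d a ρ).dualBasis hnd b k).1 t e := by
    funext J e
    have h6 := b.sum_repr ⟨fun J => t J e, h1 e⟩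
    have h7 := congrFun (congrArg Subtype.val h6) J
    rw [Finset.sum_apply, Finset.sum_apply]
    simp only at h7
    rw [← h7, Submodule.coe_sum, Finset.sum_apply]
    refine Finset.sum_congr rfl fun k _ => ?_
    rw [h3, Submodule.coe_smul, Pi.smul_apply, smul_eq_mul, mul_comm]
  rw [h5]
  refine Submodule.sum_mem _ fun k _ => Submodule.subset_span ⟨(b k).1, (b k).2, _,
    h2 _ ((interA T c d a ρ).dualBasis hnd b k).2, rfl⟩

end

end Pool.Agent.U228.KP
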