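import Pool.Agent.TH164.Num2
import Pool.Agent.TH504.CB.DerK

/-!
# Endomorphisms of Hodge structures of K3 type with many independent periods
-/

set_option autoImplicit false
set_option linter.unusedSectionVars false

open Matrix Finset Module Polynomial

namespace Pool.Agent.U228.KP

open Pool.Agent.W544.PG Pool.Agent.TH164.HC

noncomputable section

variable {n : ℕ} (T : HS n)

/-! ### Elementary facts -/

theorem conj_mulVec (u : Fin n → ℂ) : star (T.x *ᵥ u) = -(T.x *ᵥ star u) := by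
  funext i
  have h : ∀ j, (starRingEnd ℂ) (T.x i j) = -T.x i j := fun j =>
    congrFun (congrFun T.real i) j
  rw [Pi.star_apply, Pi.neg_apply]
  simp only [Matrix.mulVec, dotProduct]
  rw [star_sum, ← Finset.sum_neg_distrib]
  refine Finset.sum_congr rfl fun j _ => ?_
  rw [star_mul', Pi.star_apply]
  change (starRingEnd ℂ) (T.x i j) * _ = _
  rw [h]
  ring

theorem mC_mulVec_conj (P : Matrix (Fin n) (Fin n) ℚ) (u : Fin n → ℂ) :
    star (mC P *ᵥ u) = mC P *ᵥ star u := by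
  funext i
  rw [Pi.star_apply]
  simp only [Matrix.mulVec, dotProduct]
  rw [star_sum]
  refine Finset.sum_congr rfl fun j _ => ?_
  rw [star_mul', Pi.star_apply]
  congr 1
  simp [mC]

/-- the form -/
def bq (u w : Fin n → ℂ) : ℂ := u ⬝ᵥ (mC T.Q *ᵥ w)

theorem bq_symm (u w : Fin n → ℂ) : bq T u w = bq T w u := by
  unfold bq
  rw [Matrix.dotProduct_mulVec, ← Matrix.mulVec_transpose, mC_T, T.symm, dotProduct_comm]

theorem bq_x (u w : Fin n → ℂ) : bq T (T.x *ᵥ u) w = -bq T u (T.x *ᵥ w) := by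
  have h : T.xᵀ * mC T.Q = -(mC T.Q * T.x) := eq_neg_of_add_eq_zero_left T.skew
  unfold bq
  rw [← Matrix.vecMul_transpose, Matrix.mulVec_mulVec, ← Matrix.dotProduct_mulVec,
    Matrix.mulVec_mulVec, h, Matrix.neg_mulVec, dotProduct_neg]

theorem bq_conj (u w : Fin n → ℂ) : star (bq T u w) = bq T (star u) (star w) := by
  unfold bq
  simp only [dotProduct]
  rw [star_sum, ← mC_mulVec_conj]
  refine Finset.sum_congr rfl fun j _ => ?_
  rw [star_mul', Pi.star_apply, Pi.star_apply]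

theorem bq_add_left (u u' w : Fin n → ℂ) : bq T (u + u') w = bq T u w + bq T u' w := by
  unfold bq
  rw [add_dotProduct]

theorem bq_smul_left (a : ℂ) (u w : Fin n → ℂ) : bq T (a • u) w = a * bq T u w := by
  unfold bq
  rw [smul_dotProduct, smul_eq_mul]

theorem bq_smul_right (a : ℂ) (u w : Fin n → ℂ) : bq T u (a • w) = a * bq T u w := by
  unfold bq
  rw [Matrix.mulVec_smul, dotProduct_smul, smul_eq_mul]

theorem pos_ne {w : Fin n → ℂ} (hw : T.x *ᵥ w = w) (hw0 : w ≠ 0) : bq T (star w) w ≠ 0 := by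
  have h1 := T.pos w hw0
  have h2 : (mC T.Q * ((2 : ℂ) • (T.x * T.x) - 1)) *ᵥ w = mC T.Q *ᵥ w := by
    rw [← Matrix.mulVec_mulVec, Matrix.sub_mulVec, Matrix.smul_mulVec, ← Matrix.mulVec_mulVec, hw,
      hw, Matrix.one_mulVec]
    congr 1
    rw [two_smul]
    abel
  rw [h2] at h1
  intro h
  unfold bq at h
  rw [h] at h1
  simp at h1

/-- The Hodge structure is of K3 type: the part of type `(1, -1)` is a line, and there are no
Hodge classes. -/
structure K3Type : Prop where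
  line : (T.x * T.x).trace = 2
  trans : ∀ u : Fin n → ℚ, T.x *ᵥ cV u = 0 → u = 0

variable {T}

theorem eig_line (hn : 2 ≤ n) (hT : K3Type T) {u w : Fin n → ℂ} (hu : T.x *ᵥ u = u)
    (hw : T.x *ᵥ w = w) (hw0 : w ≠ 0) : ∃ l : ℂ, u = l • w := by
  obtain ⟨g, -, h1, h2, h3⟩ := W927.PG.coord n 1 (n - 2) T (by rw [hT.line]; norm_num) (by omega)
  obtain ⟨g', hg'⟩ : ∃ g', g' = gᴴ * T.H := ⟨_, rfl⟩
  rw [← hg'] at h1 h2
  have h4 : g' * T.x = x0 1 (n - 2) * g' := by
    calc g' * T.x = g' * T.x * (g * g') := by rw [h2, Matrix.mul_one]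
      _ = g' * (T.x * g) * g' := by simp only [Matrix.mul_assoc]
      _ = (g' * g) * x0 1 (n - 2) * g' := by rw [h3]; simp only [Matrix.mul_assoc]
      _ = _ := by rw [h1, Matrix.one_mul]
  have key : ∀ u : Fin n → ℂ, T.x *ᵥ u = u → ∀ i, i ≠ Sum.inl 0 → (g' *ᵥ u) i = 0 := by
    intro u hu i hi
    have h5 : x0 1 (n - 2) *ᵥ (g' *ᵥ u) = g' *ᵥ u := by
      rw [Matrix.mulVec_mulVec, ← h4, ← Matrix.mulVec_mulVec, hu]
    have h6 := congrFun h5 i
    rw [x0_diag, Matrix.mulVec_diagonal] at h6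
    rcases i with i | i | i
    · exact absurd (congrArg Sum.inl (Subsingleton.elim i 0)) hi
    · simp only [al, Sum.elim_inr, Sum.elim_inl, zero_mul] at h6
      exact h6.symm
    · simp only [al, Sum.elim_inr, neg_mul, one_mul] at h6
      have h7 : (2 : ℂ) * (g' *ᵥ u) (Sum.inr (Sum.inr i)) = 0 := by linear_combination -h6
      rcases mul_eq_zero.1 h7 with h8 | h8
      · norm_num at h8
      · exact h8
  have hb : (g' *ᵥ w) (Sum.inl 0) ≠ 0 := by
    intro h
    apply hw0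
    have h5 : g' *ᵥ w = 0 := by
      funext i
      by_cases hi : i = Sum.inl 0
      · rw [hi, h]; rfl
      · exact key w hw i hi
    rw [← Matrix.one_mulVec w, ← h2, ← Matrix.mulVec_mulVec, h5, Matrix.mulVec_zero]
  refine ⟨(g' *ᵥ u) (Sum.inl 0) / (g' *ᵥ w) (Sum.inl 0), ?_⟩
  have h5 : g' *ᵥ u = ((g' *ᵥ u) (Sum.inl 0) / (g' *ᵥ w) (Sum.inl 0)) • (g' *ᵥ w) := by
    funext i
    rw [Pi.smul_apply, smul_eq_mul]
    by_cases hi : i = Sum.inl 0
    · rw [hi, div_mul_cancel₀ _ hb]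
    · rw [key u hu i hi, key w hw i hi, mul_zero]
  calc u = (g * g') *ᵥ u := by rw [h2, Matrix.one_mulVec]
    _ = g *ᵥ (g' *ᵥ u) := by rw [Matrix.mulVec_mulVec]
    _ = _ := by
      rw [h5, Matrix.mulVec_smul, Matrix.mulVec_mulVec, h2, Matrix.one_mulVec]
      congr 2
      rw [Pi.smul_apply, smul_eq_mul, div_mul_cancel₀ _ hb]

/-- The periods are linearly independent over the rational numbers. -/
theorem row_zero (hn : 2 ≤ n) (hT : K3Type T) {w : Fin n → ℂ} (hw : T.x *ᵥ w = w) (hw0 : w ≠ 0)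
    (R : Fin n → ℚ) (hR : cV R ⬝ᵥ w = 0) : R = 0 := by
  have hdet : T.Q.det ≠ 0 := W74.PG.det_ne T
  have hunit : IsUnit T.Q.det := isUnit_iff_ne_zero.2 hdet
  obtain ⟨u, hu⟩ : ∃ u, u = T.Q⁻¹ *ᵥ R := ⟨_, rfl⟩
  have hQu : T.Q *ᵥ u = R := by
    rw [hu, Matrix.mulVec_mulVec, Matrix.mul_nonsing_inv _ hunit, Matrix.one_mulVec]
  have hQu' : mC T.Q *ᵥ cV u = cV R := by
    funext i
    have h1 := congrFun hQu i
    simp only [Matrix.mulVec, dotProduct] at h1 ⊢
    have h2 := congrArg (fun q : ℚ => (q : ℂ)) h1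
    push_cast at h2
    exact h2
  have hstar : star (cV u) = cV u := by
    funext i
    rw [Pi.star_apply]
    simp [cV]
  have hb : bq T (cV u) w = 0 := by
    rw [bq_symm]
    unfold bq
    rw [hQu', dotProduct_comm]
    exact hR
  have hsw : T.x *ᵥ star w = -star w := by
    have h1 := conj_mulVec T w
    rw [hw] at h1
    exact neg_eq_iff_eq_neg.1 h1.symm
  obtain ⟨y, hy⟩ : ∃ y, y = T.x *ᵥ (T.x *ᵥ cV u) + T.x *ᵥ cV u := ⟨_, rfl⟩
  have hcube : ∀ z : Fin n → ℂ, T.x *ᵥ (T.x *ᵥ (T.x *ᵥ z)) = T.x *ᵥ z := by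
    intro z
    rw [Matrix.mulVec_mulVec, Matrix.mulVec_mulVec, T.cube]
  have hxy : T.x *ᵥ y = y := by
    rw [hy, Matrix.mulVec_add, hcube, add_comm]
  obtain ⟨l, hl⟩ := eig_line hn hT hxy hw hw0
  have h2 : bq T y (star w) = 0 := by
    rw [hy, bq_add_left, bq_x, bq_x, bq_x, hsw]
    have h3 : T.x *ᵥ -star w = star w := by
      rw [Matrix.mulVec_neg, hsw, neg_neg]
    rw [h3]
    have h4 : bq T (cV u) (star w) = 0 := by
      have h5 := bq_conj T (cV u) w
      rw [hb, hstar] at h5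
      rw [← h5]
      simp
    have h6 : bq T (cV u) (-star w) = -bq T (cV u) (star w) := by
      have := bq_smul_right T (-1) (cV u) (star w)
      rwa [neg_one_smul, neg_one_mul] at this
    rw [h6, h4]
    ring
  have hl0 : l = 0 := by
    rw [hl, bq_smul_left, bq_symm] at h2
    rcases mul_eq_zero.1 h2 with h3 | h3
    · exact h3
    · exact absurd h3 (pos_ne T hw hw0)
  rw [hl0, zero_smul] at hl
  have h3 : T.x *ᵥ (T.x *ᵥ cV u) + T.x *ᵥ cV u = 0 := by rw [← hy, hl]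
  have h4 : T.x *ᵥ (T.x *ᵥ cV u) - T.x *ᵥ cV u = 0 := by
    have h5 := congrArg star h3
    rw [star_add, star_zero, conj_mulVec, conj_mulVec, hstar, Matrix.mulVec_neg, neg_neg,
      ← sub_eq_add_neg] at h5
    exact h5
  have h5 : (2 : ℂ) • (T.x *ᵥ cV u) = 0 := by
    have h6 : (2 : ℂ) • (T.x *ᵥ cV u) = (T.x *ᵥ (T.x *ᵥ cV u) + T.x *ᵥ cV u) -
        (T.x *ᵥ (T.x *ᵥ cV u) - T.x *ᵥ cV u) := by
      rw [two_smul]
      abel
    rw [h6, h3, h4, sub_zero]
  have h6 : T.x *ᵥ cV u = 0 := by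
    rcases smul_eq_zero.1 h5 with h | h
    · norm_num at h
    · exact h
  have h7 := hT.trans u h6
  rw [← hQu, h7, Matrix.mulVec_zero]

/-! ### Rational operators -/

theorem mC_mul' (P P' : Matrix (Fin n) (Fin n) ℚ) : mC (P * P') = mC P * mC P' := by
  unfold mC
  exact Matrix.map_mul (f := Rat.castHom ℂ)

theorem mC_one' : mC (1 : Matrix (Fin n) (Fin n) ℚ) = 1 := by
  unfold mC
  exact Matrix.map_one (Rat.castHom ℂ) (map_zero _) (map_one _)

theorem mC_pow' (P : Matrix (Fin n) (Fin n) ℚ) (k : ℕ) : mC (P ^ k) = mC P ^ k := by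
  induction k with
  | zero => rw [pow_zero, pow_zero, mC_one']
  | succ k ih => rw [pow_succ, pow_succ, mC_mul', ih]

theorem mC_add' (P P' : Matrix (Fin n) (Fin n) ℚ) : mC (P + P') = mC P + mC P' := by
  ext a b
  simp [mC]

theorem mC_smul' (q : ℚ) (P : Matrix (Fin n) (Fin n) ℚ) : mC (q • P) = (q : ℂ) • mC P := by
  ext a b
  simp [mC]

/-- Polynomials in an operator on an eigenvector. -/
theorem aeval_eig {P : Matrix (Fin n) (Fin n) ℚ} {w : Fin n → ℂ} {l : ℂ}
    (h : mC P *ᵥ w = l • w) (f : ℚ[X]) : mC (aeval P f) *ᵥ w = (aeval l f) • w := by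
  have hk : ∀ k : ℕ, mC (P ^ k) *ᵥ w = l ^ k • w := by
    intro k
    induction k with
    | zero => rw [pow_zero, pow_zero, mC_one', Matrix.one_mulVec, one_smul]
    | succ k ih =>
      rw [pow_succ, mC_mul', ← Matrix.mulVec_mulVec, h, Matrix.mulVec_smul, ih, smul_smul,
        pow_succ, mul_comm]
  induction f using Polynomial.induction_on' with
  | add f g hf hg =>
    rw [map_add, map_add, mC_add', Matrix.add_mulVec, hf, hg, add_smul]
  | monomial k a =>
    rw [aeval_monomial, aeval_monomial, Algebra.algebraMap_eq_smul_one, smul_mul_assoc, one_mul,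
      mC_smul', Matrix.smul_mulVec, hk, smul_smul]
    rfl

/-- A rational operator that kills the period vector is zero. -/
theorem op_zero (hn : 2 ≤ n) (hT : K3Type T) {w : Fin n → ℂ} (hw : T.x *ᵥ w = w) (hw0 : w ≠ 0)
    {P : Matrix (Fin n) (Fin n) ℚ} (hP : mC P *ᵥ w = 0) : P = 0 := by
  ext a b
  have h1 := row_zero hn hT hw hw0 (P a) (congrFun hP a)
  rw [h1]
  rfl

/-- The period vector is an eigenvector of the endomorphisms. -/
theorem eig_of_comm (hn : 2 ≤ n) (hT : K3Type T) {w : Fin n → ℂ} (hw : T.x *ᵥ w = w)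
    (hw0 : w ≠ 0) {P : Matrix (Fin n) (Fin n) ℚ} (hP : mC P * T.x = T.x * mC P) :
    ∃ l : ℂ, mC P *ᵥ w = l • w :=
  eig_line hn hT (by rw [Matrix.mulVec_mulVec, ← hP, ← Matrix.mulVec_mulVec, hw]) hw hw0

theorem isIntegral_of_eig {P : Matrix (Fin n) (Fin n) ℚ} {w : Fin n → ℂ} {l : ℂ}
    (h : mC P *ᵥ w = l • w) (hw0 : w ≠ 0) : IsIntegral ℚ l := by
  refine ⟨P.charpoly, P.charpoly_monic, ?_⟩
  have h1 := aeval_eig h P.charpoly
  rw [Matrix.aeval_self_charpoly] at h1
  have h2 : mC (0 : Matrix (Fin n) (Fin n) ℚ) = 0 := by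
    ext a b
    simp [mC]
  rw [h2, Matrix.zero_mulVec] at h1
  rcases smul_eq_zero.1 h1.symm with h3 | h3
  · exact h3
  · exact absurd h3 hw0

/-- the minimal polynomial of the eigenvalue kills the endomorphism -/
theorem aeval_minpoly (hn : 2 ≤ n) (hT : K3Type T) {w : Fin n → ℂ} (hw : T.x *ᵥ w = w)
    (hw0 : w ≠ 0) {P : Matrix (Fin n) (Fin n) ℚ} {l : ℂ} (h : mC P *ᵥ w = l • w) :
    aeval P (minpoly ℚ l) = 0 := by
  refine op_zero hn hT hw hw0 ?_
  rw [aeval_eig h, minpoly.aeval, zero_smul]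

/-- The characteristic polynomial is a power of an irreducible polynomial that kills the matrix. -/
theorem charpoly_pow (P : Matrix (Fin n) (Fin n) ℚ) (μ : ℚ[X]) (hμ : Irreducible μ)
    (hm : μ.Monic) (h : aeval P μ = 0) : ∃ a, P.charpoly = μ ^ a := by
  obtain ⟨g, hPg, hg⟩ := (FiniteMultiplicity.of_not_isUnit hμ.not_isUnit
    P.charpoly_monic.ne_zero).exists_eq_pow_mul_and_not_dvd
  obtain ⟨a, ha⟩ : ∃ a, a = multiplicity μ P.charpoly := ⟨_, rfl⟩
  rw [← ha] at hPg
  refine ⟨a, ?_⟩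
  have hgm : g.Monic := by
    have h1 := P.charpoly_monic
    rw [hPg] at h1
    exact (hm.pow a).of_mul_monic_left h1
  have hg1 : g = 1 := by
    by_contra hne
    have hdeg : g.natDegree ≠ 0 := fun h0 => hne (Polynomial.Monic.natDegree_eq_zero hgm |>.1 h0)
    have hdeg' : (g.map (algebraMap ℚ ℂ)).degree ≠ 0 := by
      rw [degree_map]
      intro h0
      exact hdeg (natDegree_eq_of_degree_eq_some h0)
    obtain ⟨z, hz⟩ := IsAlgClosed.exists_root _ hdeg'
    have hz' : aeval z g = 0 := by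
      rw [IsRoot.def, eval_map_algebraMap] at hz
      exact hz
    -- `z` is an eigenvalue
    have hc : aeval z P.charpoly = 0 := by rw [hPg, map_mul, hz', mul_zero]
    have hdet : (Matrix.scalar (Fin n) z - mC P).det = 0 := by
      have h1 : ((mC P).charpoly).eval z = 0 := by
        have h2 : mC P = P.map (algebraMap ℚ ℂ) := rfl
        rw [h2, Matrix.charpoly_map, eval_map_algebraMap, hc]
      rwa [Matrix.eval_charpoly] at h1
    obtain ⟨w, hw0, hw⟩ := Matrix.exists_mulVec_eq_zero_iff.2 hdet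
    have hw' : mC P *ᵥ w = z • w := by
      rw [Matrix.sub_mulVec, sub_eq_zero] at hw
      rw [← hw]
      simp [Matrix.scalar_apply, ← Matrix.smul_one_eq_diagonal, Matrix.smul_mulVec]
    have h3 := aeval_eig hw' μ
    rw [h] at h3
    have h2 : mC (0 : Matrix (Fin n) (Fin n) ℚ) = 0 := by
      ext a b
      simp [mC]
    rw [h2, Matrix.zero_mulVec] at h3
    have h4 : aeval z μ = 0 := by
      rcases smul_eq_zero.1 h3.symm with h5 | h5
      · exact h5
      · exact absurd h5 hw0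
    have h5 : μ = minpoly ℚ z := minpoly.eq_of_irreducible_of_monic hμ h4 hm
    exact hg (by rw [h5]; exact minpoly.dvd ℚ z hz')
  rw [hPg, hg1, mul_one]

/-- The dimension of the eigenspace. -/
theorem finrank_eig {P : Matrix (Fin n) (Fin n) ℚ} {l : ℂ} {a : ℕ} (hl : IsIntegral ℚ l)
    (ha : P.charpoly = minpoly ℚ l ^ a) :
    finrank ℂ (Module.End.eigenspace (Matrix.toLin' (mC P)) l) ≤ a := by
  refine (LinearMap.finrank_eigenspace_le _ _).trans ?_
  have h1 : (Matrix.toLin' (mC P)).charpoly = (mC P).charpoly := Matrix.charpoly_toLin' _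
  have h2 : mC P = P.map (algebraMap ℚ ℂ) := rfl
  rw [h1, h2, Matrix.charpoly_map, ha, Polynomial.map_pow]
  have hsep : ((minpoly ℚ l).map (algebraMap ℚ ℂ)).Separable :=
    (minpoly.irreducible hl).separable.map
  have hne : (minpoly ℚ l).map (algebraMap ℚ ℂ) ≠ 0 :=
    ((minpoly.monic hl).map _).ne_zero
  rw [← count_roots, roots_pow, Multiset.count_nsmul]
  have h3 : Multiset.count l ((minpoly ℚ l).map (algebraMap ℚ ℂ)).roots ≤ 1 :=
    Multiset.nodup_iff_count_le_one.1 (nodup_roots hsep) l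
  calc a * Multiset.count l ((minpoly ℚ l).map (algebraMap ℚ ℂ)).roots ≤ a * 1 :=
        Nat.mul_le_mul_left _ h3
    _ = a := mul_one a

/-- Derivations kill algebraic numbers. -/
theorem der_alg (δ : Derivation ℚ ℂ ℂ) {l : ℂ} (hl : IsIntegral ℚ l) : δ l = 0 := by
  have h1 := δ.map_aeval (minpoly ℚ l) l
  rw [minpoly.aeval, map_zero] at h1
  have h2 : aeval l (derivative (minpoly ℚ l)) ≠ 0 :=
    (minpoly.irreducible hl).separable.aeval_derivative_ne_zero (minpoly.aeval ℚ l)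
  rcases smul_eq_zero.1 h1.symm with h3 | h3
  · exact absurd h3 h2
  · exact h3

theorem der_rat (δ : Derivation ℚ ℂ ℂ) (q : ℚ) : δ (q : ℂ) = 0 := δ.map_algebraMap q

theorem der_mC (δ : Derivation ℚ ℂ ℂ) (P : Matrix (Fin n) (Fin n) ℚ) (w : Fin n → ℂ) :
    (fun i => δ ((mC P *ᵥ w) i)) = mC P *ᵥ fun i => δ (w i) := by
  funext i
  simp only [Matrix.mulVec, dotProduct, map_sum]
  refine Finset.sum_congr rfl fun j _ => ?_
  rw [δ.leibniz]
  have h1 : δ (mC P i j) = 0 := der_rat δ (P i j)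
  rw [h1, smul_zero, add_zero, smul_eq_mul]

end

end Pool.Agent.U228.KP
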