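import Pool.Agent.U228.KP.Endo

/-!
# Hodge structures of K3 type with many independent periods have only the trivial endomorphisms
-/

set_option autoImplicit false
set_option linter.unusedSectionVars false

open Matrix Finset Module Polynomial

namespace Pool.Agent.U228.KP

open Pool.Agent.W544.PG Pool.Agent.TH164.HC

/-- There are enough independent periods: `D > n / 2 - 1`, or the rank `n` is odd and
`D > n / l - 2`, where `l` is the smallest prime divisor of `n`. -/
def EnoughPeriods (n D : ℕ) : Prop := n < 2 * (D + 1) ∨ (Odd n ∧ n < n.minFac * (D + 2))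

noncomputable section

variable {n : ℕ} {T : HS n}

/-- the derivative of a vector -/
def dv (δ : Derivation ℚ ℂ ℂ) (w : Fin n → ℂ) : Fin n → ℂ := fun i => δ (w i)

theorem dv_bq (δ : Derivation ℚ ℂ ℂ) (u w : Fin n → ℂ) :
    δ (bq T u w) = bq T (dv δ u) w + bq T u (dv δ w) := by
  have h1 : mC T.Q *ᵥ dv δ w = dv δ (mC T.Q *ᵥ w) := (der_mC δ T.Q w).symm
  unfold bq
  rw [h1]
  simp only [dotProduct, map_sum, ← Finset.sum_add_distrib]
  refine Finset.sum_congr rfl fun j _ => ?_
  rw [δ.leibniz, smul_eq_mul, smul_eq_mul, add_comm]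
  congr 1
  rw [mul_comm]
  rfl

theorem dv_eig (δ : Derivation ℚ ℂ ℂ) {P : Matrix (Fin n) (Fin n) ℚ} {w : Fin n → ℂ} {l : ℂ}
    (hl : IsIntegral ℚ l) (h : mC P *ᵥ w = l • w) : mC P *ᵥ dv δ w = l • dv δ w := by
  have h1 : mC P *ᵥ dv δ w = dv δ (mC P *ᵥ w) := (der_mC δ P w).symm
  rw [h1, h]
  funext i
  simp only [dv, Pi.smul_apply, smul_eq_mul]
  rw [δ.leibniz, der_alg δ hl, smul_zero, add_zero, smul_eq_mul]

section family

variable {D : ℕ} {w : Fin n → ℂ} {e : Fin n} {p : Fin D → Fin n} {δ : Fin D → Derivation ℚ ℂ ℂ}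

theorem dv_one (he : w e = 1) (δ : Derivation ℚ ℂ ℂ) : dv δ w e = 0 := by
  unfold dv
  rw [he]
  have := der_rat δ 1
  rwa [Rat.cast_one] at this

/-- The period vector and its derivatives are linearly independent. -/
theorem indep (he : w e = 1) (hδ : ∀ s t, δ s (w (p t)) = if t = s then 1 else 0)
    (a : ℂ) (b : Fin D → ℂ) (h : a • w + ∑ s, b s • dv (δ s) w = 0) : a = 0 ∧ b = 0 := by
  have h1 := congrFun h e
  rw [Pi.add_apply, Pi.smul_apply, he, Finset.sum_apply, Pi.zero_apply, smul_eq_mul, mul_one,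
    Finset.sum_eq_zero, add_zero] at h1
  · refine ⟨h1, ?_⟩
    funext t
    have h2 := congrFun h (p t)
    rw [Pi.add_apply, h1, Pi.smul_apply, zero_smul, zero_add, Finset.sum_apply,
      Finset.sum_eq_single t, Pi.smul_apply] at h2
    · have h3 : dv (δ t) w (p t) = 1 := by
        unfold dv
        rw [hδ, if_pos rfl]
      rw [h3, smul_eq_mul, mul_one] at h2
      exact h2
    · intro s _ hs
      have h3 : dv (δ s) w (p t) = 0 := by
        unfold dv
        rw [hδ, if_neg hs.symm]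
      rw [Pi.smul_apply, h3, smul_zero]
    · intro h
      exact absurd (Finset.mem_univ t) h
  · intro s _
    rw [Pi.smul_apply, dv_one he, smul_zero]

theorem card_le (he : w e = 1) (hδ : ∀ s t, δ s (w (p t)) = if t = s then 1 else 0)
    (E : Submodule ℂ (Fin n → ℂ)) (hw : w ∈ E) (hd : ∀ s, dv (δ s) w ∈ E) :
    D + 1 ≤ finrank ℂ E := by
  let F : Option (Fin D) → E := fun o => o.elim ⟨w, hw⟩ fun s => ⟨dv (δ s) w, hd s⟩
  have hF : LinearIndependent ℂ F := by
    rw [Fintype.linearIndependent_iff]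
    intro g hg
    have h1 : g none • w + ∑ s, g (some s) • dv (δ s) w = 0 := by
      have h2 := congrArg Subtype.val hg
      rw [Fintype.sum_option] at h2
      simp only [F, Option.elim, Submodule.coe_add, Submodule.coe_smul, Submodule.coe_zero,
        AddSubmonoidClass.coe_finsetSum] at h2
      exact h2
    obtain ⟨h2, h3⟩ := indep he hδ _ _ h1
    intro o
    rcases o with _ | s
    · exact h2
    · exact congrFun h3 s
  have h := hF.fintype_card_le_finrank
  simpa using h

theorem card_le' (he : w e = 1) (hδ : ∀ s t, δ s (w (p t)) = if t = s then 1 else 0)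
    (hx : T.x *ᵥ w = w) (E : Submodule ℂ (Fin n → ℂ)) (hw : w ∈ E) (hd : ∀ s, dv (δ s) w ∈ E)
    (hs : star w ∈ E) : D + 2 ≤ finrank ℂ E := by
  have hw0 : w ≠ 0 := by
    intro h
    rw [h] at he
    exact zero_ne_one he
  have hb0 : bq T w w = 0 := by
    have h1 := bq_x T w w
    rw [hx] at h1
    have h2 : (2 : ℂ) * bq T w w = 0 := by linear_combination h1
    rcases mul_eq_zero.1 h2 with h3 | h3
    · norm_num at h3
    · exact h3
  have hbd : ∀ s, bq T (dv (δ s) w) w = 0 := by
    intro s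
    have h1 := dv_bq (T := T) (δ s) w w
    rw [hb0, map_zero, bq_symm T w] at h1
    have h2 : (2 : ℂ) * bq T (dv (δ s) w) w = 0 := by linear_combination -h1
    rcases mul_eq_zero.1 h2 with h3 | h3
    · norm_num at h3
    · exact h3
  have hbs := pos_ne T hx hw0
  let F : Option (Option (Fin D)) → E := fun o => o.elim ⟨star w, hs⟩ fun o' =>
    o'.elim ⟨w, hw⟩ fun s => ⟨dv (δ s) w, hd s⟩
  have hF : LinearIndependent ℂ F := by
    rw [Fintype.linearIndependent_iff]
    intro g hg
    have h1 : g none • star w + (g (some none) • w + ∑ s, g (some (some s)) • dv (δ s) w) = 0 := by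
      have h2 := congrArg Subtype.val hg
      rw [Fintype.sum_option, Fintype.sum_option] at h2
      simp only [F, Option.elim, Submodule.coe_add, Submodule.coe_smul, Submodule.coe_zero,
        AddSubmonoidClass.coe_finsetSum] at h2
      exact h2
    have h0 : g none = 0 := by
      have h2 : bq T (g none • star w + (g (some none) • w +
          ∑ s, g (some (some s)) • dv (δ s) w)) w = bq T 0 w := by rw [h1]
      rw [bq_add_left, bq_add_left, bq_smul_left, bq_smul_left, hb0, mul_zero, zero_add] at h2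
      have h3 : bq T (∑ s, g (some (some s)) • dv (δ s) w) w = 0 := by
        unfold bq
        rw [sum_dotProduct]
        refine Finset.sum_eq_zero fun s _ => ?_
        have h4 := hbd s
        unfold bq at h4
        rw [smul_dotProduct, h4, smul_zero]
      have h5 : bq T (0 : Fin n → ℂ) w = 0 := by
        unfold bq
        rw [zero_dotProduct]
      rw [h3, add_zero, h5] at h2
      rcases mul_eq_zero.1 h2 with h6 | h6
      · exact h6
      · exact absurd h6 hbs
    rw [h0, zero_smul, zero_add] at h1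
    obtain ⟨h2, h3⟩ := indep he hδ _ _ h1
    intro o
    rcases o with _ | _ | s
    · exact h0
    · exact h2
    · exact congrFun h3 s
  have h := hF.fintype_card_le_finrank
  rw [Fintype.card_option, Fintype.card_option, Fintype.card_fin] at h
  exact h

end family

/-- The adjoint of an endomorphism. -/
theorem adj_comm {P : Matrix (Fin n) (Fin n) ℚ} (hP : mC P * T.x = T.x * mC P) :
    mC (T.Q⁻¹ * Pᵀ * T.Q) * T.x = T.x * mC (T.Q⁻¹ * Pᵀ * T.Q) := by
  have hunit : IsUnit T.Q.det := isUnit_iff_ne_zero.2 (W74.PG.det_ne T)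
  obtain ⟨q, hq⟩ : ∃ q, q = mC T.Q := ⟨_, rfl⟩
  obtain ⟨q', hq'⟩ : ∃ q', q' = mC T.Q⁻¹ := ⟨_, rfl⟩
  have e1 : q * q' = 1 := by
    rw [hq, hq', ← mC_mul', Matrix.mul_nonsing_inv _ hunit, mC_one']
  have e2 : q' * q = 1 := by
    rw [hq, hq', ← mC_mul', Matrix.nonsing_inv_mul _ hunit, mC_one']
  have hs : T.xᵀ * q = -(q * T.x) := by
    rw [hq]
    exact eq_neg_of_add_eq_zero_left T.skew
  have hs' : q * T.x = -(T.xᵀ * q) := by rw [hs, neg_neg]
  have hs2 : q' * T.xᵀ = -(T.x * q') := by
    calc q' * T.xᵀ = q' * (T.xᵀ * q) * q' := by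
          rw [Matrix.mul_assoc, Matrix.mul_assoc, e1, Matrix.mul_one]
      _ = _ := by
        rw [hs, Matrix.mul_neg, Matrix.neg_mul, ← Matrix.mul_assoc, e2, Matrix.one_mul]
  rw [mC_mul', mC_mul', ← hq, ← hq', ← mC_T]
  calc q' * (mC P)ᵀ * q * T.x = q' * (mC P)ᵀ * (q * T.x) := by rw [Matrix.mul_assoc]
    _ = -(q' * ((mC P)ᵀ * T.xᵀ) * q) := by
      rw [hs', Matrix.mul_neg]
      simp only [Matrix.mul_assoc]
    _ = -(q' * (T.xᵀ * (mC P)ᵀ) * q) := by
      rw [← Matrix.transpose_mul, ← hP, Matrix.transpose_mul]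
    _ = -((q' * T.xᵀ) * (mC P)ᵀ * q) := by simp only [Matrix.mul_assoc]
    _ = _ := by
      rw [hs2]
      simp only [Matrix.neg_mul, neg_neg, Matrix.mul_assoc]

/-- In odd rank all endomorphisms are self-adjoint. -/
theorem self_adj (hn : 2 ≤ n) (hodd : Odd n) (hT : K3Type T) {w : Fin n → ℂ}
    (hw : T.x *ᵥ w = w) (hw0 : w ≠ 0) {P : Matrix (Fin n) (Fin n) ℚ}
    (hP : mC P * T.x = T.x * mC P) : Pᵀ * T.Q = T.Q * P := by
  have hdet : T.Q.det ≠ 0 := W74.PG.det_ne T
  have hunit : IsUnit T.Q.det := isUnit_iff_ne_zero.2 hdet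
  obtain ⟨P', hP'⟩ : ∃ P', P' = T.Q⁻¹ * Pᵀ * T.Q := ⟨_, rfl⟩
  obtain ⟨M, hM⟩ : ∃ M, M = P - P' := ⟨_, rfl⟩
  have hQP' : T.Q * P' = Pᵀ * T.Q := by
    rw [hP', ← Matrix.mul_assoc, ← Matrix.mul_assoc, Matrix.mul_nonsing_inv _ hunit,
      Matrix.one_mul]
  have hskew : Mᵀ * T.Q = -(T.Q * M) := by
    have h1 : P'ᵀ * T.Q = T.Q * P := by
      have h2 := congrArg Matrix.transpose hQP'
      rw [Matrix.transpose_mul, Matrix.transpose_mul, Matrix.transpose_transpose, T.symm] at h2
      exact h2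
    rw [hM, Matrix.transpose_sub, Matrix.sub_mul, Matrix.mul_sub, h1, hQP', neg_sub]
  have hM0 : M.det = 0 := by
    have h1 : (T.Q * M)ᵀ = -(T.Q * M) := by rw [Matrix.transpose_mul, T.symm, hskew]
    have h2 := congrArg Matrix.det h1
    rw [Matrix.det_transpose, Matrix.det_neg, Fintype.card_fin, hodd.neg_one_pow, neg_one_mul] at h2
    have h3 : (T.Q * M).det = 0 := by linarith
    rw [Matrix.det_mul] at h3
    rcases mul_eq_zero.1 h3 with h4 | h4
    · exact absurd h4 hdet
    · exact h4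
  have hMx : mC M * T.x = T.x * mC M := by
    have h1 : mC M = mC P - mC P' := by
      rw [hM]
      ext a b
      simp [mC]
    rw [h1, Matrix.sub_mul, Matrix.mul_sub, hP, hP', adj_comm hP]
  obtain ⟨l, hl⟩ := eig_of_comm hn hT hw hw0 hMx
  have hint := isIntegral_of_eig hl hw0
  obtain ⟨a, ha⟩ := charpoly_pow M (minpoly ℚ l) (minpoly.irreducible hint) (minpoly.monic hint)
    (aeval_minpoly hn hT hw hw0 hl)
  have h0 : (minpoly ℚ l).eval 0 = 0 := by
    have h1 := congrArg (fun f => Polynomial.eval 0 f) ha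
    simp only [Matrix.eval_charpoly, eval_pow] at h1
    have h2 : (Matrix.scalar (Fin n) (0 : ℚ) - M).det = 0 := by
      rw [map_zero, zero_sub, Matrix.det_neg, hM0, mul_zero]
    rw [h2] at h1
    exact eq_zero_of_pow_eq_zero h1.symm
  have hl0 : l = 0 := by
    have h1 : aeval (0 : ℂ) (minpoly ℚ l) = 0 := by
      rw [← map_zero (algebraMap ℚ ℂ), aeval_algebraMap_apply_eq_algebraMap_eval, h0, map_zero]
    have h2 : minpoly ℚ l = minpoly ℚ (0 : ℂ) :=
      minpoly.eq_of_irreducible_of_monic (minpoly.irreducible hint) h1 (minpoly.monic hint)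
    rw [minpoly.zero] at h2
    have h3 := minpoly.aeval ℚ l
    rw [h2, aeval_X] at h3
    exact h3
  rw [hl0, zero_smul] at hl
  have h1 := op_zero hn hT hw hw0 hl
  rw [hM, sub_eq_zero] at h1
  rw [← hQP', ← h1]

/-- **Many independent periods: all endomorphisms are scalars.** -/
theorem scalar (hn : 2 ≤ n) (hT : K3Type T) {w : Fin n → ℂ} (hw : T.x *ᵥ w = w) {e : Fin n}
    (he : w e = 1) {D : ℕ} (p : Fin D → Fin n) (K : Subfield ℂ)
    (hp : AlgebraicIndependent K fun s => w (p s)) (hD : EnoughPeriods n D) : T.Scalar := by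
  intro P hP
  by_contra hcon
  have hw0 : w ≠ 0 := by
    intro h
    rw [h] at he
    exact zero_ne_one he
  choose δ hδK hδ using fun s : Fin D =>
    Pool.Agent.TH504.CB.exists_derivationK hp (fun t => if t = s then (1 : ℂ) else 0)
  obtain ⟨l, hl⟩ := eig_of_comm hn hT hw hw0 hP
  have hint := isIntegral_of_eig hl hw0
  obtain ⟨a, ha⟩ := charpoly_pow P (minpoly ℚ l) (minpoly.irreducible hint) (minpoly.monic hint)
    (aeval_minpoly hn hT hw hw0 hl)
  obtain ⟨m, hm⟩ : ∃ m, m = (minpoly ℚ l).natDegree := ⟨_, rfl⟩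
  have hnm : n = a * m := by
    have h1 := congrArg natDegree ha
    rw [Matrix.charpoly_natDegree_eq_dim, Fintype.card_fin, natDegree_pow, ← hm] at h1
    exact h1
  have hm2 : 2 ≤ m := by
    have h1 : 0 < m := by rw [hm]; exact minpoly.natDegree_pos hint
    have h2 : m ≠ 1 := by
      intro h
      rw [hm, minpoly.natDegree_eq_one_iff] at h
      obtain ⟨q, hq⟩ := h
      apply hcon
      refine ⟨q, ?_⟩
      have h3 : mC (P - q • (1 : Matrix (Fin n) (Fin n) ℚ)) *ᵥ w = 0 := by
        have h4 : mC (P - q • (1 : Matrix (Fin n) (Fin n) ℚ)) = mC P - (q : ℂ) • 1 := by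
          rw [← mC_one', ← mC_smul']
          ext a b
          simp [mC]
        rw [h4, Matrix.sub_mulVec, hl, Matrix.smul_mulVec, Matrix.one_mulVec, ← hq]
        exact sub_self _
      have h4 := op_zero hn hT hw hw0 h3
      exact sub_eq_zero.1 h4
    omega
  obtain ⟨E, hE⟩ : ∃ E, E = Module.End.eigenspace (Matrix.toLin' (mC P)) l := ⟨_, rfl⟩
  have hEmem : ∀ u : Fin n → ℂ, mC P *ᵥ u = l • u → u ∈ E := by
    intro u hu
    rw [hE, Module.End.mem_eigenspace_iff, Matrix.toLin'_apply]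
    exact hu
  have hEa : finrank ℂ E ≤ a := by
    rw [hE]
    exact finrank_eig hint ha
  have h1 := card_le he hδ E (hEmem w hl) (fun s => hEmem _ (dv_eig (δ s) hint hl))
  rcases hD with hD | ⟨hodd, hD⟩
  · have h2 : (D + 1) * 2 ≤ a * m := Nat.mul_le_mul (h1.trans hEa) hm2
    omega
  · have hsym := self_adj hn hodd hT hw hw0 hP
    have hbP : ∀ u u' : Fin n → ℂ, bq T (mC P *ᵥ u) u' = bq T u (mC P *ᵥ u') := by
      intro u u'
      have h2 : (mC P)ᵀ * mC T.Q = mC T.Q * mC P := by
        rw [mC_T, ← mC_mul', ← mC_mul', hsym]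
      unfold bq
      rw [← Matrix.vecMul_transpose, Matrix.mulVec_mulVec, ← Matrix.dotProduct_mulVec,
        Matrix.mulVec_mulVec, h2]
    have hsP : mC P *ᵥ star w = (starRingEnd ℂ l) • star w := by
      rw [← mC_mulVec_conj, hl, star_smul]
      rfl
    have hreal : starRingEnd ℂ l = l := by
      have h2 := hbP w (star w)
      rw [hl, bq_smul_left, hsP, bq_smul_right, bq_symm T w] at h2
      exact (mul_right_cancel₀ (pos_ne T hw hw0) h2).symm
    rw [hreal] at hsP
    have h2 := card_le' he hδ hw E (hEmem w hl) (fun s => hEmem _ (dv_eig (δ s) hint hl))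
      (hEmem _ hsP)
    have h3 : n.minFac ≤ m := Nat.minFac_le_of_dvd hm2 ⟨a, by rw [hnm, mul_comm]⟩
    have h4 : (D + 2) * n.minFac ≤ a * m := Nat.mul_le_mul (h2.trans hEa) h3
    rw [← hnm, mul_comm] at h4
    omega

/-- If one of the periods is transcendental over `K`, then some derivation over `K` does not kill the
Hodge operator. -/
theorem exists_der (hn : 2 ≤ n) (hT : K3Type T) {w : Fin n → ℂ} (hw : T.x *ᵥ w = w) {e : Fin n}
    (he : w e = 1) {δ : Derivation ℚ ℂ ℂ} {i : Fin n} (hi : δ (w i) ≠ 0) :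
    ∃ a b, δ (T.x a b) ≠ 0 := by
  by_contra hcon
  push Not at hcon
  have hw0 : w ≠ 0 := by
    intro h
    rw [h] at he
    exact zero_ne_one he
  have h1 : T.x *ᵥ dv δ w = dv δ w := by
    funext j
    have h2 := congrArg δ (congrFun hw j)
    simp only [Matrix.mulVec, dotProduct, map_sum] at h2 ⊢
    unfold dv
    rw [← h2]
    refine Finset.sum_congr rfl fun b _ => ?_
    rw [δ.leibniz, hcon j b, smul_zero, add_zero, smul_eq_mul]
  obtain ⟨l, hl⟩ := eig_line hn hT h1 hw hw0
  have h2 := congrFun hl e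
  rw [dv_one he, Pi.smul_apply, he, smul_eq_mul, mul_one] at h2
  rw [← h2, zero_smul] at hl
  exact hi (congrFun hl i)

end

end Pool.Agent.U228.KP
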