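import Pool.Agent.U228.KP.Nt
import Pool.Agent.U228.KP.Scal

/-!
# Hodge classes on the powers of K3 surfaces with many independent periods
-/

set_option autoImplicit false
set_option linter.unusedSectionVars false

open Matrix Finset Module

namespace Pool.Agent.U228.KP

open Pool.Agent.W544.PG Pool.Agent.TH164.HC

noncomputable section

variable {n s v m : ℕ} {T : HS n}

/-- A Hodge structure of K3 type without nontrivial endomorphisms is killed by `so(T)`. -/
theorem so_le (hn : 2 ≤ n) (hT : K3Type T) (hS : T.Scalar) (Z : Matrix (Fin n) (Fin n) ℂ)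
    (hZ : Zᵀ * mC T.Q + mC T.Q * Z = 0) : Z ∈ T.hT :=
  mainTF n 1 (n - 2) T hS (by rw [hT.line]; norm_num) (by omega) one_pos (Or.inl rfl) Z hZ

/-- Hodge classes on the powers. -/
theorem alg_of_hodge (hn : 2 ≤ n) (hT : K3Type T) (hS : T.Scalar)
    (t : (Fin m → Fin s ⊕ Fin n) → ℚ) (ht : T.IsHodgeS t)
    (htr : ∀ J, t J ≠ 0 → (univ.filter fun j => (J j).isRight = true).card < n) :
    t ∈ T.alg s m :=
  W74.PG.hct n s T (fun k hk t ht =>
    W74.PG.fftT n k T hk t fun Z hZ => (so_le hn hT hS Z hZ).2 k t ht) m t ht htr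

theorem big_of (hn3 : 3 ≤ n) (hn4 : n ≠ 4) (hT : K3Type T) (hS : T.Scalar) :
    T.Big (fun _ => (0 : Fin 1)) (fun _ => 1) (fun _ => n - 2) where
  bQ := fun _ _ h => absurd rfl h
  bx := fun _ _ h => absurd rfl h
  endo := by
    intro P hP
    obtain ⟨q, hq⟩ := hS P hP
    refine ⟨fun _ => q, ?_⟩
    rw [hq]
    ext a b
    simp [Matrix.one_apply, Matrix.diagonal_apply]
  tr := by
    intro i
    have h1 := hT.line
    unfold Matrix.trace at h1
    simp only [Matrix.diag_apply] at h1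
    rw [Finset.filter_true_of_mem (fun a _ => Subsingleton.elim _ _), h1]
    norm_num
  rk := by
    intro i
    rw [Finset.filter_true_of_mem (fun a _ => Subsingleton.elim _ _), Finset.card_univ,
      Fintype.card_fin]
    omega
  num := fun i => Or.inl ⟨rfl, by omega, by omega⟩

theorem full_of (hn3 : 3 ≤ n) (hn4 : n ≠ 4) (hT : K3Type T) (hS : T.Scalar) :
    Full T (fun _ => (0 : Fin 1)) (fun _ => n) := by
  have h := full_of_big (big_of hn3 hn4 hT hS)
  have h1 : (fun _ : Fin 1 => 2 * 1 + (n - 2)) = fun _ => n := by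
    funext i
    omega
  rwa [h1] at h

/-- The algebraic classes and the transcendental part of the diagonal are Hodge classes. -/
theorem hodge_of_alg (t : (Fin m → Fin s ⊕ Fin n) → ℚ) (ht : t ∈ T.alg s m) :
    T.IsHodgeS t := by
  have h1 : T.alg s m ≤ T.algP (fun _ => (0 : Fin 1)) (fun _ => (0 : Fin 1)) (fun _ => 0) := by
    refine Submodule.span_mono ?_
    rintro t ⟨σ, ν, h1, h2⟩
    refine ⟨σ, ν, h1, fun _ => rfl, fun _ _ _ => rfl, fun J => ?_⟩
    rw [h2]
    congr 1
    refine Finset.prod_congr rfl fun j _ => ?_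
    rw [if_pos (Subsingleton.elim _ _)]
  exact W374.PG.hodge_algP T _ _ _ (fun _ _ h => absurd rfl h) t (h1 ht)

/-- Products of algebraic classes and Hodge classes are Hodge classes. -/
theorem hodge_of_products {V : HZ v} (t : (Fin m → Fin s ⊕ Fin n) → Fin v → ℚ)
    (ht : t ∈ products (T.alg s m) V.Hdg) : IsHodgeZ T V t := by
  refine products_hodge (c := fun _ => (0 : Fin 1)) (fun _ _ h => absurd rfl h) (fun _ => 0)
    (fun _ => 0) t (Submodule.span_mono ?_ ht)
  rintro f ⟨α, hα, x, hx, rfl⟩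
  refine ⟨α, ?_, x, hx, rfl⟩
  refine Submodule.span_mono ?_ hα
  rintro t ⟨σ, ν, h1, h2⟩
  refine ⟨σ, ν, h1, fun _ => rfl, fun _ _ _ => rfl, fun J => ?_⟩
  rw [h2]
  congr 1
  refine Finset.prod_congr rfl fun j _ => ?_
  rw [if_pos (Subsingleton.elim _ _)]

/-- **K3 surfaces with many independent periods.** -/
theorem many_periods (hn : 3 ≤ n) (hT : K3Type T) {w : Fin n → ℂ} (hw : T.x *ᵥ w = w)
    {e : Fin n} (he : w e ≠ 0) (K : Subfield ℂ) {D : ℕ} (p : Fin D → Fin n)
    (hp : AlgebraicIndependent K fun s => w (p s) / w e) (hD : EnoughPeriods n D) :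
    (∀ (s m : ℕ) (t : (Fin m → Fin s ⊕ Fin n) → ℚ),
      (∀ J, t J ≠ 0 → (univ.filter fun j => (J j).isRight = true).card < n) →
      (T.IsHodgeS t ↔ t ∈ T.alg s m)) ∧
    (0 < D → n ≠ 4 → ∀ (v : ℕ) (V : HZ v), (∀ a b, V.z a b ∈ K) →
      ∀ (s m : ℕ) (t : (Fin m → Fin s ⊕ Fin n) → Fin v → ℚ),
        (∀ J b, t J b ≠ 0 → (univ.filter fun j => (J j).isRight = true).card < n) →
        (IsHodgeZ T V t ↔ t ∈ products (T.alg s m) V.Hdg)) := by
  -- normalise the period vector
  obtain ⟨w', hw'⟩ : ∃ w', w' = (w e)⁻¹ • w := ⟨_, rfl⟩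
  have hxw' : T.x *ᵥ w' = w' := by rw [hw', Matrix.mulVec_smul, hw]
  have he' : w' e = 1 := by rw [hw', Pi.smul_apply, smul_eq_mul, inv_mul_cancel₀ he]
  have hpe : (fun s => w (p s) / w e) = fun s => w' (p s) := by
    funext s
    rw [hw', Pi.smul_apply, smul_eq_mul, div_eq_inv_mul]
  rw [hpe] at hp
  have hS := scalar (by omega) hT hxw' he' p K hp hD
  refine ⟨fun s m t htr => ⟨fun ht => alg_of_hodge (by omega) hT hS t ht htr,
    hodge_of_alg t⟩, ?_⟩
  intro hD0 hn4 v V hV s m t htr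
  refine ⟨fun ht => ?_, hodge_of_products t⟩
  have hF := full_of hn hn4 hT hS
  obtain ⟨δ, hδK, hδ⟩ := Pool.Agent.TH504.CB.exists_derivationK hp (fun _ => (1 : ℂ))
  obtain ⟨a, b, hab⟩ := exists_der (δ := δ) (by omega) hT hxw' he' (i := p ⟨0, hD0⟩) (by
    rw [hδ ⟨0, hD0⟩]
    exact one_ne_zero)
  have hsep := separate hF ht fun i => by
    refine ⟨T.x.map δ, Nt_der ht hF.bx δ fun a b => hδK ⟨V.z a b, hV a b⟩, a, b,
      Subsingleton.elim _ _, Subsingleton.elim _ _, ?_⟩
    rw [Matrix.map_apply]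
    exact hab
  exact mem_products t (fun b => alg_of_hodge (by omega) hT hS _ (hsep.1 b)
    fun J hJ => htr J b hJ) hsep.2

end

end Pool.Agent.U228.KP
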