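import Pool.Agent.U228.KP.Dual

/-!
# Invariance of the algebraic classes under isometries
-/

set_option autoImplicit false
set_option linter.unusedSectionVars false

open Matrix Finset Module

namespace Pool.Agent.U228.KP

open Pool.Agent.W544.PG Pool.Agent.TH164.HC

noncomputable section

section gen

variable {κ : Type} [Fintype κ] [DecidableEq κ] {m : ℕ} {R : Type} [CommRing R]

theorem prod_split (σ : Fin m → Fin m) (hσ : ∀ j, σ (σ j) = j) (f : Fin m → R) :
    ∏ j, f j = (∏ j with σ j = j, f j) *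
      ((∏ p : {j // j < σ j}, f p.1) * ∏ p : {j // j < σ j}, f (σ p.1)) := by
  rw [← Finset.prod_filter_mul_prod_filter_not univ (fun j => σ j = j) f]
  congr 1
  rw [← Finset.prod_filter_mul_prod_filter_not (univ.filter fun j => ¬ σ j = j)
    (fun j => j < σ j) f]
  congr 1
  · symm
    refine Finset.prod_bij (fun p _ => p.1) ?_ ?_ ?_ ?_
    · intro p _
      simp only [Finset.mem_filter, Finset.mem_univ, true_and]
      exact ⟨ne_of_gt p.2, p.2⟩
    · intro p _ q _ h
      exact Subtype.ext h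
    · intro j hj
      simp only [Finset.mem_filter, Finset.mem_univ, true_and] at hj
      exact ⟨⟨j, hj.2⟩, Finset.mem_univ _, rfl⟩
    · intro p _
      rfl
  · symm
    refine Finset.prod_bij (fun p _ => σ p.1) ?_ ?_ ?_ ?_
    · intro p _
      simp only [Finset.mem_filter, Finset.mem_univ, true_and, hσ]
      exact ⟨ne_of_lt p.2, not_lt.2 p.2.le⟩
    · intro p _ q _ h
      apply Subtype.ext
      rw [← hσ p.1, h, hσ]
    · intro j hj
      simp only [Finset.mem_filter, Finset.mem_univ, true_and] at hj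
      have h1 : σ j < j := lt_of_le_of_ne (not_lt.1 hj.2) hj.1
      exact ⟨⟨σ j, by rw [hσ]; exact h1⟩, Finset.mem_univ _, hσ j⟩
    · intro p _
      rfl

theorem sum_split (σ : Fin m → Fin m) (U : R) (A B : {j // j < σ j} → κ → R) :
    ∑ W : {j // j < σ j} → κ, U * ((∏ p, A p (W p)) * ∏ p, B p (W p)) =
      U * ∏ p, ∑ w, A p w * B p w := by
  rw [Finset.prod_univ_sum, Fintype.piFinset_univ, Finset.mul_sum]
  refine Finset.sum_congr rfl fun W _ => ?_
  rw [Finset.prod_mul_distrib]

/-- the auxiliary factors -/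
def fac (σ : Fin m → Fin m) (hσ : ∀ j, σ (σ j) = j) (ψ : Fin m → κ → R) (φ : Fin m → κ → κ → R)
    (W : {j // j < σ j} → κ) (j : Fin m) (x : κ) : R :=
  if h : j < σ j then φ j x (W ⟨j, h⟩) else
    if h' : σ j < j then (if W ⟨σ j, by rw [hσ]; exact h'⟩ = x then 1 else 0) else ψ j x

theorem fac_prod (σ : Fin m → Fin m) (hσ : ∀ j, σ (σ j) = j) (ψ : Fin m → κ → R)
    (φ : Fin m → κ → κ → R) (g : Matrix κ κ R) (J : Fin m → κ) :
    ∑ W, ∏ j, ∑ x, g x (J j) * fac σ hσ ψ φ W j x =
      (∏ j with σ j = j, ∑ x, g x (J j) * ψ j x) *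
        ∏ p : {j // j < σ j}, ∑ w, (∑ x, g x (J p.1) * φ p.1 x w) * g w (J (σ p.1)) := by
  rw [← sum_split σ _ (fun p w => ∑ x, g x (J p.1) * φ p.1 x w) fun p w => g w (J (σ p.1))]
  refine Finset.sum_congr rfl fun W _ => ?_
  rw [prod_split σ hσ]
  congr 1
  · refine Finset.prod_congr rfl fun j hj => ?_
    have h1 : σ j = j := (Finset.mem_filter.1 hj).2
    refine Finset.sum_congr rfl fun x _ => ?_
    unfold fac
    rw [dif_neg (by rw [h1]; exact lt_irrefl _), dif_neg (by rw [h1]; exact lt_irrefl _)]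
  · congr 1
    · refine Finset.prod_congr rfl fun p _ => ?_
      refine Finset.sum_congr rfl fun x _ => ?_
      unfold fac
      rw [dif_pos p.2]
    · refine Finset.prod_congr rfl fun p _ => ?_
      have h2 : ∀ x, fac σ hσ ψ φ W (σ p.1) x = if W p = x then 1 else 0 := by
        intro x
        unfold fac
        rw [dif_neg (by rw [hσ]; exact not_lt.2 p.2.le), dif_pos (by rw [hσ]; exact p.2)]
        have h3 : (⟨σ (σ p.1), by rw [hσ]; exact p.2⟩ : {j // j < σ j}) = p :=
          Subtype.ext (hσ _)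
        rw [h3]
      simp only [h2, mul_ite, mul_one, mul_zero, Finset.sum_ite_eq, Finset.mem_univ, if_true]

theorem gen_eq (σ : Fin m → Fin m) (hσ : ∀ j, σ (σ j) = j) (ψ : Fin m → κ → R)
    (φ : Fin m → κ → κ → R) (K : Fin m → κ) :
    (∏ j with σ j = j, ψ j (K j)) * ∏ j with j < σ j, φ j (K j) (K (σ j)) =
      ∑ W, ∏ j, fac σ hσ ψ φ W j (K j) := by
  have h1 := fac_prod σ hσ ψ φ (1 : Matrix κ κ R) K
  have h2 : ∀ (f : κ → R) (y : κ), ∑ x, (1 : Matrix κ κ R) x y * f x = f y := by
    intro f y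
    rw [Finset.sum_eq_single y]
    · rw [Matrix.one_apply_eq, one_mul]
    · intro x _ hx
      rw [Matrix.one_apply_ne hx, zero_mul]
    · intro h
      exact absurd (Finset.mem_univ _) h
  simp only [h2] at h1
  rw [h1]
  congr 1
  have h3 : ∀ p : {j // j < σ j}, ∑ w, φ p.1 (K p.1) w * (1 : Matrix κ κ R) w (K (σ p.1)) =
      φ p.1 (K p.1) (K (σ p.1)) := by
    intro p
    rw [← h2 (fun w => φ p.1 (K p.1) w) (K (σ p.1))]
    exact Finset.sum_congr rfl fun w _ => mul_comm _ _
  rw [Finset.prod_congr rfl fun p _ => h3 p]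
  symm
  refine Finset.prod_bij (fun p _ => p.1) ?_ ?_ ?_ ?_
  · intro p _
    simp only [Finset.mem_filter, Finset.mem_univ, true_and]
    exact p.2
  · intro p _ q _ h
    exact Subtype.ext h
  · intro j hj
    exact ⟨⟨j, (Finset.mem_filter.1 hj).2⟩, Finset.mem_univ _, rfl⟩
  · intro p _
    rfl

/-- A matrix which respects the factors fixes the product. -/
theorem pull_gen (σ : Fin m → Fin m) (hσ : ∀ j, σ (σ j) = j) (ψ : Fin m → κ → R)
    (φ : Fin m → κ → κ → R) (g : Matrix κ κ R) (hψ : ∀ j y, ∑ x, g x y * ψ j x = ψ j y)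
    (hφ : ∀ j y z, ∑ w, (∑ x, g x y * φ j x w) * g w z = φ j y z) :
    pull g (fun J => (∏ j with σ j = j, ψ j (J j)) * ∏ j with j < σ j, φ j (J j) (J (σ j))) =
      fun J => (∏ j with σ j = j, ψ j (J j)) * ∏ j with j < σ j, φ j (J j) (J (σ j)) := by
  funext J
  unfold pull
  have h1 : ∀ K : Fin m → κ, (∏ j, g (K j) (J j)) *
      ((∏ j with σ j = j, ψ j (K j)) * ∏ j with j < σ j, φ j (K j) (K (σ j))) =
      ∑ W, ∏ j, (g (K j) (J j) * fac σ hσ ψ φ W j (K j)) := by
    intro K
    rw [gen_eq σ hσ ψ φ K, Finset.mul_sum]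
    refine Finset.sum_congr rfl fun W _ => ?_
    rw [Finset.prod_mul_distrib]
  rw [Finset.sum_congr rfl fun K _ => h1 K, Finset.sum_comm]
  have h2 : ∀ W : {j // j < σ j} → κ, ∑ K : Fin m → κ,
      ∏ j, (g (K j) (J j) * fac σ hσ ψ φ W j (K j)) =
      ∏ j, ∑ x, g x (J j) * fac σ hσ ψ φ W j x := by
    intro W
    rw [Finset.prod_univ_sum, Fintype.piFinset_univ]
  rw [Finset.sum_congr rfl fun W _ => h2 W, fac_prod]
  congr 1
  · exact Finset.prod_congr rfl fun j _ => hψ j (J j)
  · rw [Finset.prod_congr rfl fun p _ => hφ p.1 (J p.1) (J (σ p.1))]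
    refine Finset.prod_bij (fun p _ => p.1) ?_ ?_ ?_ ?_
    · intro p _
      simp only [Finset.mem_filter, Finset.mem_univ, true_and]
      exact p.2
    · intro p _ q _ h
      exact Subtype.ext h
    · intro j hj
      exact ⟨⟨j, (Finset.mem_filter.1 hj).2⟩, Finset.mem_univ _, rfl⟩
    · intro p _
      rfl

end gen

variable {n s m r v : ℕ}

/-- The action of an isometry of the transcendental part on the cohomology of the surfaces. -/
def ext1 (s : ℕ) (g : Matrix (Fin n) (Fin n) ℚ) : Matrix (Fin s ⊕ Fin n) (Fin s ⊕ Fin n) ℚ :=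
  fromBlocks 1 0 0 g

/-- The classes in `algP` are fixed by the isometries of the `T_i`. -/
theorem algP_fixed (T : HS n) (c : Fin n → Fin r) (d : Fin s → Fin r) (a : Fin m → Fin r)
    {g : Matrix (Fin n) (Fin n) ℚ} (hg : gᵀ * T.Q * g = T.Q) (hgc : BD c g)
    {β : (Fin m → Fin s ⊕ Fin n) → ℚ} (hβ : β ∈ T.algP c d a) : pull (ext1 s g) β = β := by
  induction hβ using Submodule.span_induction with
  | mem t ht =>
    obtain ⟨σ, ν, h1, -, -, ht⟩ := ht
    let φ : Fin m → Fin s ⊕ Fin n → Fin s ⊕ Fin n → ℚ := fun j x w =>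
      if Sum.elim d c x = a j then
        (Matrix.fromBlocks 0 0 0 T.Q : Matrix (Fin s ⊕ Fin n) (Fin s ⊕ Fin n) ℚ) x w else 0
    have h2 : t = fun J => (∏ j with σ j = j, Sum.elim (ν j) (fun _ => 0) (J j)) *
      ∏ j with j < σ j, φ j (J j) (J (σ j)) := funext ht
    rw [h2]
    refine pull_gen (κ := Fin s ⊕ Fin n) (R := ℚ) σ h1 (fun j => Sum.elim (ν j) fun _ => 0) φ
      (ext1 s g) ?_ ?_
    · intro j y
      rw [Fintype.sum_sum_type]
      rcases y with y | y
      · simp [ext1, Matrix.one_apply]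
      · simp [ext1]
    · intro j y z
      obtain ⟨M, hMd⟩ : ∃ M : Matrix (Fin s ⊕ Fin n) (Fin s ⊕ Fin n) ℚ,
        M = fromBlocks 0 0 0 T.Q := ⟨_, rfl⟩
      have hM : (ext1 s g)ᵀ * M * ext1 s g = M := by
        rw [hMd]
        unfold ext1
        rw [fromBlocks_transpose, fromBlocks_multiply, fromBlocks_multiply]
        simp [hg]
      have hG : ∀ x y : Fin s ⊕ Fin n, Sum.elim d c x ≠ Sum.elim d c y → ext1 s g x y = 0 := by
        intro x y hxy
        rcases x with x | x <;> rcases y with y | y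
        · exact Matrix.one_apply_ne fun h => hxy (by rw [h])
        · rfl
        · rfl
        · exact hgc x y hxy
      have h3 : ∀ w, ∑ x, ext1 s g x y * φ j x w = if Sum.elim d c y = a j then
          ((ext1 s g)ᵀ * M) y w else 0 := by
        intro w
        rw [Matrix.mul_apply, hMd]
        by_cases hy : Sum.elim d c y = a j
        · rw [if_pos hy]
          refine Finset.sum_congr rfl fun x _ => ?_
          change _ * (if _ then _ else _) = _
          by_cases hx : Sum.elim d c x = a j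
          · rw [if_pos hx]
            rfl
          · rw [if_neg hx, Matrix.transpose_apply, hG x y (fun h => hx (h.trans hy)), zero_mul,
              zero_mul]
        · rw [if_neg hy]
          refine Finset.sum_eq_zero fun x _ => ?_
          change _ * (if _ then _ else _) = _
          by_cases hx : Sum.elim d c x = a j
          · rw [hG x y (fun h => hy (h.symm.trans hx)), zero_mul]
          · rw [if_neg hx, mul_zero]
      refine (Finset.sum_congr rfl fun w _ => congrArg (· * ext1 s g w z) (h3 w)).trans ?_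
      change _ = if _ then _ else _
      rw [← hMd]
      by_cases hy : Sum.elim d c y = a j
      · rw [if_pos hy]
        have h4 := congrFun (congrFun hM y) z
        refine Eq.trans ?_ h4
        rw [Matrix.mul_apply]
        refine Finset.sum_congr rfl fun w _ => ?_
        simp only [if_pos hy]
      · simp only [if_neg hy, zero_mul, Finset.sum_const_zero]
  | zero => funext J; simp [pull]
  | add x y _ _ hx hy =>
    conv_rhs => rw [← hx, ← hy]
    funext J
    simp only [pull, Pi.add_apply, mul_add, Finset.sum_add_distrib]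
  | smul q x _ hx =>
    conv_rhs => rw [← hx]
    funext J
    simp only [pull, Pi.smul_apply, smul_eq_mul, Finset.mul_sum]
    refine Finset.sum_congr rfl fun K _ => ?_
    ring

/-- The intersection form is preserved by the isometries of the `T_i`. -/
theorem inter_pull (T : HS n) (ρ : Fin s → ℚ) {g : Matrix (Fin n) (Fin n) ℚ}
    (hg : gᵀ * T.Q * g = T.Q) (β α : (Fin m → Fin s ⊕ Fin n) → ℚ) :
    inter T.Q ρ (pull (ext1 s g) β) (pull (ext1 s g) α) = inter T.Q ρ β α := by
  rw [inter_eq T.symm, inter_eq T.symm, pull_adj, ← W557.PG.pull_mul, ← W557.PG.pull_mul]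
  have hu : IsUnit T.Q.det := isUnit_iff_ne_zero.2 (W74.PG.det_ne T)
  have h1 : T.Q⁻¹ * gᵀ * (T.Q * g) = 1 := by
    rw [Matrix.mul_assoc, ← Matrix.mul_assoc gᵀ, hg, Matrix.nonsing_inv_mul _ hu]
  have h2 : T.Q * g * (T.Q⁻¹ * gᵀ) = 1 := mul_eq_one_comm.1 h1
  have h3 : g * T.Q⁻¹ * gᵀ = T.Q⁻¹ := by
    calc g * T.Q⁻¹ * gᵀ = (T.Q⁻¹ * T.Q) * (g * T.Q⁻¹ * gᵀ) := by
          rw [Matrix.nonsing_inv_mul _ hu, Matrix.one_mul]
      _ = T.Q⁻¹ * (T.Q * g * (T.Q⁻¹ * gᵀ)) := by simp only [Matrix.mul_assoc]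
      _ = T.Q⁻¹ := by rw [h2, Matrix.mul_one]
  have h4 : ext1 s g * ifm T.Q ρ * (ext1 s g)ᵀ = ifm T.Q ρ := by
    unfold ext1 ifm
    rw [fromBlocks_transpose, fromBlocks_multiply, fromBlocks_multiply]
    simp [h3]
  have h5 : (ext1 s g) * (ifm T.Q ρ * (ext1 s g)ᵀ) = ifm T.Q ρ := by
    rw [← Matrix.mul_assoc, h4]
  rw [h5]

end

end Pool.Agent.U228.KP
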