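import Pool.Agent.U228.KP.Nt
import Pool.Agent.W557.PG.Ahl

/-!
# The pairing of Hodge classes on products of surfaces
-/

set_option autoImplicit false
set_option linter.unusedSectionVars false

open Matrix Finset Module

namespace Pool.Agent.U228.KP

open Pool.Agent.W544.PG Pool.Agent.TH164.HC
open scoped ComplexOrder MatrixOrder

noncomputable section

section gen

variable {κ : Type} [Fintype κ] [DecidableEq κ] {m : ℕ}

theorem pull_adj {R : Type} [CommRing R] (P : Matrix κ κ R) (a b : (Fin m → κ) → R) :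
    ∑ J, pull P a J * b J = ∑ J, a J * pull Pᵀ b J := by
  simp only [pull, Finset.sum_mul, Finset.mul_sum]
  rw [Finset.sum_comm]
  refine Finset.sum_congr rfl fun K _ => Finset.sum_congr rfl fun J _ => ?_
  simp only [Matrix.transpose_apply]
  ring

theorem EE_pull (P : Matrix κ κ ℂ) (f : (Fin m → κ) → ℂ) (v : Fin m → κ → ℂ) :
    W143.PG.EE (pull P f) v = W143.PG.EE f fun j => P *ᵥ v j := by
  rw [W143.PG.EE_apply, W143.PG.EE_apply]
  simp only [pull, Matrix.mulVec, dotProduct, Finset.sum_mul]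
  rw [Finset.sum_comm]
  refine Finset.sum_congr rfl fun K _ => ?_
  rw [Finset.prod_univ_sum, Finset.mul_sum]
  simp only [Fintype.piFinset_univ, Finset.prod_mul_distrib]
  refine Finset.sum_congr rfl fun J _ => ?_
  ring

theorem EE_inj {f g : (Fin m → κ) → ℂ} (h : W143.PG.EE f = W143.PG.EE g) : f = g := by
  funext J
  have h1 := congrArg (fun F : MultilinearMap ℂ (fun _ : Fin m => κ → ℂ) ℂ =>
    F (fun i => Pi.single (J i) 1)) h
  simp only [W143.PG.EE_single] at h1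
  exact h1

theorem pull_rat (P : Matrix κ κ ℚ) (a : (Fin m → κ) → ℚ) :
    cx (pull P a) = pull (P.map fun q : ℚ => (q : ℂ)) (cx a) := by
  funext J
  simp only [cx, pull, Matrix.map_apply]
  push_cast
  rfl

/-- positivity -/
theorem pair_pos {P : Matrix κ κ ℂ} (hP : P.PosDef) {a : (Fin m → κ) → ℚ} (ha : a ≠ 0) :
    ∑ J, cx a J * pull P (cx a) J ≠ 0 := by
  obtain ⟨B, hB⟩ := CStarAlgebra.nonneg_iff_eq_star_mul_self.mp hP.posSemidef.nonneg
  have hB' : P = Bᴴ * B := hB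
  have hunit : IsUnit B.det := by
    have h1 : IsUnit P.det := hP.isUnit.map Matrix.detMonoidHom
    rw [hB', Matrix.det_mul] at h1
    exact isUnit_of_mul_isUnit_right h1
  have h1 : pull P (cx a) = pull B (pull Bᴴ (cx a)) := by rw [hB', W557.PG.pull_mul]
  have h2 : ∑ J, cx a J * pull P (cx a) J = ∑ J, pull Bᵀ (cx a) J * pull Bᴴ (cx a) J := by
    rw [h1, pull_adj Bᵀ, Matrix.transpose_transpose]
  have h3 : pull Bᴴ (cx a) = fun J => star (pull Bᵀ (cx a) J) := by
    funext J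
    simp only [pull, cx]
    rw [star_sum]
    refine Finset.sum_congr rfl fun K _ => ?_
    rw [star_mul', star_prod]
    congr 1
    exact (map_ratCast (starRingEnd ℂ) _).symm
  rw [h2, h3]
  intro h0
  have h4 : ∀ J, pull Bᵀ (cx a) J = 0 := by
    have h5 : ∑ J, ‖pull Bᵀ (cx a) J‖ ^ 2 = 0 := by
      have h6 : ((∑ J, ‖pull Bᵀ (cx a) J‖ ^ 2 : ℝ) : ℂ) = 0 := by
        rw [← h0]
        push_cast
        refine Finset.sum_congr rfl fun J _ => ?_
        exact (Complex.mul_conj' _).symm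
      exact_mod_cast h6
    intro J
    have h7 := (Finset.sum_eq_zero_iff_of_nonneg (fun J _ => sq_nonneg _)).1 h5 J
      (Finset.mem_univ J)
    exact norm_eq_zero.1 (pow_eq_zero_iff two_ne_zero |>.1 h7)
  apply ha
  have h5 : cx a = 0 := by
    have h6 : pull (Bᵀ)⁻¹ (pull Bᵀ (cx a)) = cx a := by
      rw [← W557.PG.pull_mul, Matrix.mul_nonsing_inv _ (by rwa [Matrix.det_transpose]),
        W557.PG.pull_one]
    rw [← h6, show pull Bᵀ (cx a) = 0 from funext h4]
    funext J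
    simp [pull]
  funext J
  have h6 := congrFun h5 J
  simp only [cx, Pi.zero_apply, Rat.cast_eq_zero] at h6
  exact h6

end gen

variable {n s m : ℕ} (T : HS n)

/-- the decomposition into eigenvectors -/
theorem xS_dec' (z : Fin s ⊕ Fin n → ℂ) :
    ∃ f : Fin 3 → Fin s ⊕ Fin n → ℂ, z = ∑ r, f r ∧
      ∀ r, T.xS s *ᵥ f r = (((![1, 0, -1] : Fin 3 → ℤ) r : ℤ) : ℂ) • f r := by
  obtain ⟨x, hx⟩ : ∃ x, x = T.xS s := ⟨_, rfl⟩
  have hc : x * (x * x) = x := by rw [hx]; exact xS_cube T s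
  rw [← hx]
  refine ⟨![((1 / 2 : ℂ) • (x * x + x)) *ᵥ z, (1 - x * x) *ᵥ z,
    ((1 / 2 : ℂ) • (x * x - x)) *ᵥ z], ?_, ?_⟩
  · rw [Fin.sum_univ_three]
    simp only [Matrix.cons_val_zero, Matrix.cons_val_one, Matrix.cons_val]
    rw [← Matrix.add_mulVec, ← Matrix.add_mulVec]
    have : (1 / 2 : ℂ) • (x * x + x) + (1 - x * x) + (1 / 2 : ℂ) • (x * x - x) = 1 := by module
    rw [this, Matrix.one_mulVec]
  · intro r
    fin_cases r
    · simp only [Fin.zero_eta, Matrix.cons_val_zero, Int.cast_one, one_smul]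
      rw [Matrix.mulVec_mulVec, mul_smul_comm, mul_add, hc, add_comm]
    · simp only [Fin.mk_one, Matrix.cons_val_one, Matrix.cons_val_zero, Int.cast_zero, zero_smul]
      rw [Matrix.mulVec_mulVec, mul_sub, hc, mul_one, sub_self, Matrix.zero_mulVec]
    · simp only [Fin.reduceFinMk, Matrix.cons_val, Int.cast_neg, Int.cast_one]
      rw [Matrix.mulVec_mulVec, mul_smul_comm, mul_sub, hc, ← Matrix.smul_mulVec]
      congr 1
      module

/-- the signs of the Weil operator -/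
theorem sign_prod {k : ℕ} (e : Fin k → ℤ) (he : ∀ j, e j = 1 ∨ e j = 0 ∨ e j = -1) :
    ∏ j, ((2 : ℂ) * (e j : ℂ) ^ 2 - 1) = (-1) ^ k * (-1 : ℂ) ^ (∑ j, e j) := by
  induction k with
  | zero => simp
  | succ k ih =>
    rw [Fin.prod_univ_castSucc, Fin.sum_univ_castSucc, ih _ fun j => he _,
      zpow_add₀ (by norm_num : (-1 : ℂ) ≠ 0)]
    have h1 : (2 : ℂ) * (e (Fin.last k) : ℂ) ^ 2 - 1 = -1 * (-1 : ℂ) ^ (e (Fin.last k)) := by
      rcases he (Fin.last k) with h | h | h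
      · rw [h]; norm_num
      · rw [h]; norm_num
      · rw [h]; norm_num
    rw [h1, pow_succ]
    ring

/-- The Weil operator acts on Hodge classes by a sign. -/
theorem weil (t : (Fin m → Fin s ⊕ Fin n) → ℚ) (ht : T.IsHodgeS t) :
    pull ((2 : ℂ) • (T.xS s * T.xS s) - 1) (cx t) = ((-1 : ℂ) ^ m) • cx t := by
  obtain ⟨x, hx⟩ : ∃ x, x = T.xS s := ⟨_, rfl⟩
  apply EE_inj
  refine MultilinearMap.ext fun v => ?_
  rw [EE_pull]
  have hr : W143.PG.EE (((-1 : ℂ) ^ m) • cx t) v = ((-1 : ℂ) ^ m) * W143.PG.EE (cx t) v := by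
    rw [W143.PG.EE_apply, W143.PG.EE_apply, Finset.mul_sum]
    refine Finset.sum_congr rfl fun J _ => ?_
    rw [Pi.smul_apply, smul_eq_mul, mul_assoc]
  rw [hr]
  choose f hf hG using fun j => xS_dec' T (v j)
  have h1 : v = fun j => ∑ r, f j r := funext fun j => hf j
  have h2 : (fun j => ((2 : ℂ) • (T.xS s * T.xS s) - 1) *ᵥ v j) = fun j =>
      ∑ r, ((2 : ℂ) * (((![1, 0, -1] : Fin 3 → ℤ) r : ℤ) : ℂ) ^ 2 - 1) • f j r := by
    funext j
    rw [hf j, Matrix.mulVec_sum]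
    refine Finset.sum_congr rfl fun r _ => ?_
    rw [Matrix.sub_mulVec, Matrix.smul_mulVec, ← Matrix.mulVec_mulVec, hG, Matrix.mulVec_smul, hG,
      Matrix.one_mulVec, sub_smul, one_smul, smul_smul, smul_smul, pow_two, mul_assoc]
  rw [h2, h1, MultilinearMap.map_sum, MultilinearMap.map_sum, Finset.mul_sum]
  refine Finset.sum_congr rfl fun r _ => ?_
  rw [MultilinearMap.map_smul_univ, smul_eq_mul, sign_prod _ (fun j => by
    have h3 : ∀ i : Fin 3, (![1, 0, -1] : Fin 3 → ℤ) i = 1 ∨ (![1, 0, -1] : Fin 3 → ℤ) i = 0 ∨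
      (![1, 0, -1] : Fin 3 → ℤ) i = -1 := by decide
    exact h3 (r j))]
  by_cases h0 : ∑ j, (![1, 0, -1] : Fin 3 → ℤ) (r j) = 0
  · rw [h0, zpow_zero, mul_one]
  · have h4 : W143.PG.EE (cx t) (fun j => f j (r j)) = 0 := by
      have h5 := ht (fun j => f j (r j)) (fun j => (![1, 0, -1] : Fin 3 → ℤ) (r j))
        (fun j => hG j (r j)) h0
      rw [W143.PG.EE_apply]
      exact h5
    rw [h4, mul_zero, mul_zero]

/-- the polarisation is positive definite -/
theorem H_posDef : T.H.PosDef := by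
  rw [Matrix.posDef_iff_dotProduct_mulVec]
  have hherm : T.H.IsHermitian := by
    have hxH : T.xᴴ = -T.xᵀ := by
      have h1 := T.real
      have h2 : T.xᴴ = (T.x.map (starRingEnd ℂ))ᵀ := rfl
      rw [h2, h1, Matrix.transpose_neg]
    have hQH : (mC T.Q)ᴴ = mC T.Q := by rw [mC_H, T.symm]
    have hs : T.xᵀ * mC T.Q = -(mC T.Q * T.x) := eq_neg_of_add_eq_zero_left T.skew
    unfold Matrix.IsHermitian HS.H
    rw [Matrix.conjTranspose_mul, Matrix.conjTranspose_sub, Matrix.conjTranspose_smul,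
      Matrix.conjTranspose_mul, hxH, hQH, Matrix.conjTranspose_one, neg_mul_neg, Matrix.sub_mul,
      Matrix.smul_mul, Matrix.mul_assoc, hs, Matrix.mul_neg, ← Matrix.mul_assoc, hs,
      Matrix.neg_mul, neg_neg, Matrix.one_mul, Matrix.mul_sub, Matrix.mul_smul, Matrix.mul_one,
      Matrix.mul_assoc]
    congr 2
    simp
  refine ⟨hherm, fun v hv => ?_⟩
  have h1 := T.pos v hv
  have h2 : (star v ⬝ᵥ (T.H *ᵥ v)).im = 0 := by
    have h3 : star (star v ⬝ᵥ (T.H *ᵥ v)) = star v ⬝ᵥ (T.H *ᵥ v) := by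
      rw [← Matrix.star_dotProduct, Matrix.star_mulVec, hherm.eq, ← Matrix.dotProduct_mulVec]
    have h4 := congrArg Complex.im h3
    rw [Complex.star_def, Complex.conj_im] at h4
    linarith
  rw [Complex.lt_def]
  exact ⟨h1, h2.symm⟩

end

end Pool.Agent.U228.KP
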